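import Pool.Agent.Q175.BB.Prof

/-! The bumps `g₀(|x - c|²) (x - c)`. -/

set_option autoImplicit false

open MeasureTheory Laplacian InnerProductSpace Filter Topology Set
open scoped ContDiff

namespace Pool.Agent.Q175.BB

variable {m : ℕ}

/-- `ℝ^n`, `n = m + 3` -/
abbrev EE (m : ℕ) : Type := EuclideanSpace ℝ (Fin (m + 3))

/-- the `i`-th component of the bump with centre `c` and scale `d` -/
noncomputable def bu (m : ℕ) (d : ℝ) (c : EE m) (i : Fin (m + 3)) (x : EE m) : ℝ :=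
  g0 m d (‖x - c‖ ^ 2) * (x - c) i

noncomputable def prj (m : ℕ) (i : Fin (m + 3)) : EE m →L[ℝ] ℝ := EuclideanSpace.proj i

lemma prj_apply (i : Fin (m + 3)) (x : EE m) : prj m i x = x i := rfl

/-- derivative -/
noncomputable def bu1 (m : ℕ) (d : ℝ) (c : EE m) (i : Fin (m + 3)) (x : EE m) : EE m →L[ℝ] ℝ :=
  g0 m d (‖x - c‖ ^ 2) • prj m i + ((x - c) i * g1 m d (‖x - c‖ ^ 2)) • ((2:ℕ) • innerSL ℝ (x - c))

variable {d : ℝ} {c : EE m} {i : Fin (m + 3)}

lemma pos1 (x : EE m) : 0 < 1 + ((‖x - c‖ ^ 2) / d ^ 2) ^ (m + 3) := by positivity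

lemma hasFDerivAt_nsq (x : EE m) : HasFDerivAt (fun y : EE m => ‖y - c‖ ^ 2) ((2:ℕ) • innerSL ℝ (x - c)) x := by
  have h := (hasStrictFDerivAt_norm_sq (x - c)).hasFDerivAt.comp x ((hasFDerivAt_id x).sub_const c)
  refine h.congr_fderiv ?_
  ext y
  simp

lemma hasFDerivAt_coord (x : EE m) : HasFDerivAt (fun y : EE m => (y - c) i) (prj m i) x := by
  have h := (prj m i).hasFDerivAt.comp x ((hasFDerivAt_id x).sub_const c)
  exact h

lemma hasFDerivAt_bu (x : EE m) : HasFDerivAt (bu m d c i) (bu1 m d c i x) x := by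
  have h1 := (hasDerivAt_g0 (d := d) (pos1 (m := m) (c := c) x)).comp_hasFDerivAt x (hasFDerivAt_nsq x)
  have h2 := h1.mul (hasFDerivAt_coord (c := c) (i := i) x)
  refine h2.congr_fderiv ?_
  unfold bu1
  ext y
  simp
  ring

lemma lap_bu (x : EE m) : Δ (bu m d c i) x =
    (4 * ‖x - c‖ ^ 2 * g2 m d (‖x - c‖ ^ 2) + (2 * (m + 3 : ℝ) + 4) * g1 m d (‖x - c‖ ^ 2)) * (x - c) i := by
  have h0 := (hasDerivAt_g0 (d := d) (pos1 (m := m) (c := c) x)).comp_hasFDerivAt x (hasFDerivAt_nsq x)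
  have h1 := (hasDerivAt_g1 (d := d) (pos1 (m := m) (c := c) x)).comp_hasFDerivAt x (hasFDerivAt_nsq x)
  have h2 := h0.smul_const (prj m i)
  have h3 := (hasFDerivAt_coord (c := c) (i := i) x).mul h1
  have h4 : HasFDerivAt (fun y : EE m => (2:ℕ) • innerSL ℝ (y - c)) ((2 : ℕ) • (innerSL ℝ : EE m →L[ℝ] EE m →L[ℝ] ℝ)) x := by
    have := ((2 : ℕ) • (innerSL ℝ : EE m →L[ℝ] EE m →L[ℝ] ℝ)).hasFDerivAt.comp x ((hasFDerivAt_id x).sub_const c)
    exact this
  have h5 := h2.add (h3.smul h4)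
  rw [H314.CS.LL.laplacian_eq_of_hasFDerivAt (EuclideanSpace.basisFun (Fin (m + 3)) ℝ)
    (Eventually.of_forall fun y => hasFDerivAt_bu y) h5]
  have hin : ∀ k : Fin (m + 3), inner ℝ (x - c) (EuclideanSpace.single k (1:ℝ)) = (x - c) k := by
    intro k
    rw [EuclideanSpace.inner_single_right]
    simp
  have hkk : ∀ k : Fin (m + 3), inner ℝ (EuclideanSpace.single k (1:ℝ)) (EuclideanSpace.single k (1:ℝ)) = (1:ℝ) := by
    intro k
    rw [EuclideanSpace.inner_single_right]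
    simp
  have hp : ∀ k : Fin (m + 3), prj m i (EuclideanSpace.single k (1:ℝ)) = if i = k then 1 else 0 := by
    intro k
    rw [prj_apply]
    simp
  have hkk2 : ∀ k : Fin (m + 3), (innerSL ℝ : EE m →L[ℝ] EE m →L[ℝ] ℝ) (EuclideanSpace.single k 1)
      (EuclideanSpace.single k 1) = 1 := hkk
  have hsum := EuclideanSpace.real_norm_sq_eq (x - c)
  refine (Finset.sum_congr rfl fun k _ => (show _ = (if i = k then 4 * g1 m d (‖x - c‖ ^ 2) * (x - c) k else 0) +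
      2 * ((x - c) i * g1 m d (‖x - c‖ ^ 2)) +
      4 * (x - c) i * g2 m d (‖x - c‖ ^ 2) * ((x - c) k) ^ 2 from ?_)).trans ?_
  · simp only [EuclideanSpace.basisFun_apply, add_apply, ContinuousLinearMap.smulRight_apply, smul_apply,
      Function.comp_apply, Pi.mul_apply, hp, innerSL_apply_apply, hin, smul_eq_mul, nsmul_eq_mul]
    have e := hkk2 k
    split_ifs with h
    · subst h
      push_cast
      linear_combination (2 * ((x - c) i * g1 m d (‖x - c‖ ^ 2))) * e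
    · push_cast
      linear_combination (2 * ((x - c) i * g1 m d (‖x - c‖ ^ 2))) * e
  · rw [Finset.sum_add_distrib, Finset.sum_add_distrib, Finset.sum_ite_eq, if_pos (Finset.mem_univ _)]
    have e : ∑ k, 4 * (x - c) i * g2 m d (‖x - c‖ ^ 2) * ((x - c) k) ^ 2 =
      4 * (x - c) i * g2 m d (‖x - c‖ ^ 2) * ‖x - c‖ ^ 2 := by rw [hsum, Finset.mul_sum]
    rw [e]
    simp only [Finset.sum_const, Finset.card_univ, Fintype.card_fin, nsmul_eq_mul]
    push_cast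
    ring

lemma bu_smooth : ContDiff ℝ ∞ (bu m d c i) := by
  have h0 : ContDiff ℝ ∞ (fun x : EE m => ‖x - c‖ ^ 2) := (contDiff_id.sub contDiff_const).norm_sq ℝ
  have h1 : ContDiff ℝ ∞ (fun x : EE m => 1 + ((‖x - c‖ ^ 2) / d ^ 2) ^ (m + 3)) :=
    contDiff_const.add ((h0.div_const _).pow _)
  have h2 : ContDiff ℝ ∞ (fun x : EE m => al m d (‖x - c‖ ^ 2)) :=
    (h1.sqrt fun x => (pos1 x).ne').inv fun x => (Real.sqrt_pos.mpr (pos1 x)).ne'
  have h3 : ContDiff ℝ ∞ (fun x : EE m => HH.χ ((‖x - c‖ ^ 2) / d)) := HH.χ_smooth.comp (h0.div_const _)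
  have h4 : ContDiff ℝ ∞ (fun x : EE m => (x - c) i) := (prj m i).contDiff.comp (contDiff_id.sub contDiff_const)
  exact ((contDiff_const.mul h2).mul h3).mul h4

/-- the gradient of the bump -/
lemma grad_bu (x : EE m) : gradient (bu m d c i) x =
    g0 m d (‖x - c‖ ^ 2) • EuclideanSpace.single i (1:ℝ) + (2 * ((x - c) i * g1 m d (‖x - c‖ ^ 2))) • (x - c) := by
  have h : HasGradientAt (bu m d c i)
      (g0 m d (‖x - c‖ ^ 2) • EuclideanSpace.single i (1:ℝ) + (2 * ((x - c) i * g1 m d (‖x - c‖ ^ 2))) • (x - c)) x := by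
    rw [hasGradientAt_iff_hasFDerivAt]
    refine (hasFDerivAt_bu x).congr_fderiv ?_
    unfold bu1
    ext y
    simp [prj_apply, EuclideanSpace.inner_single_left]
    ring
  exact h.gradient

lemma grad_bu_norm (x : EE m) : ‖gradient (bu m d c i) x‖ ≤
    |g0 m d (‖x - c‖ ^ 2)| + 2 * ‖x - c‖ ^ 2 * |g1 m d (‖x - c‖ ^ 2)| := by
  rw [grad_bu]
  refine (norm_add_le _ _).trans ?_
  rw [norm_smul, norm_smul, Real.norm_eq_abs, Real.norm_eq_abs]
  have h1 : ‖EuclideanSpace.single i (1:ℝ)‖ = 1 := by simp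
  rw [h1, mul_one, abs_mul, abs_mul, abs_two]
  have h2 : |(x - c) i| ≤ ‖x - c‖ := by
    have := PiLp.norm_apply_le (x - c) i
    simpa using this
  have h3 : 2 * (|(x - c) i| * |g1 m d (‖x - c‖ ^ 2)|) * ‖x - c‖ ≤ 2 * (‖x - c‖ * |g1 m d (‖x - c‖ ^ 2)|) * ‖x - c‖ := by
    gcongr
  have h4 : 2 * (‖x - c‖ * |g1 m d (‖x - c‖ ^ 2)|) * ‖x - c‖ = 2 * ‖x - c‖ ^ 2 * |g1 m d (‖x - c‖ ^ 2)| := by ring
  linarith

lemma g0_nonneg (hd : 0 < d) {s : ℝ} (hs : 0 ≤ s) : 0 ≤ g0 m d s := by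
  have := al_pos (m := m) (d := d) hs
  have := HH.χ_nonneg (s / d)
  unfold g0
  positivity

/-- the gradient of `x + bump` is large -/
lemma grad_sum (hd : 0 < d) (x : EE m) :
    1 + g0 m d (‖x - c‖ ^ 2) ^ 2 ≤ ∑ i : Fin (m + 3), ‖EuclideanSpace.single i (1:ℝ) + gradient (bu m d c i) x‖ ^ 2 := by
  have hg := g0_nonneg (m := m) hd (sq_nonneg ‖x - c‖)
  set G := g0 m d (‖x - c‖ ^ 2)
  set G' := g1 m d (‖x - c‖ ^ 2)
  set z := x - c with hz
  have hterm : ∀ i : Fin (m + 3), ‖EuclideanSpace.single i (1:ℝ) + gradient (bu m d c i) x‖ ^ 2 =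
      (1 + G) ^ 2 + (4 * G' * (1 + G) + 4 * G' ^ 2 * ‖z‖ ^ 2) * (z i) ^ 2 := by
    intro i
    rw [grad_bu]
    have e : EuclideanSpace.single i (1:ℝ) + (G • EuclideanSpace.single i (1:ℝ) + (2 * (z i * G')) • z) =
        (1 + G) • EuclideanSpace.single i (1:ℝ) + (2 * (z i * G')) • z := by
      rw [add_smul, one_smul, add_assoc]
    rw [e, norm_add_sq_real, norm_smul, norm_smul, inner_smul_left, inner_smul_right,
      EuclideanSpace.inner_single_left, mul_pow, mul_pow, Real.norm_eq_abs, Real.norm_eq_abs, sq_abs, sq_abs]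
    simp
    ring
  rw [Finset.sum_congr rfl fun i _ => hterm i, Finset.sum_add_distrib, ← Finset.mul_sum,
    ← EuclideanSpace.real_norm_sq_eq z]
  simp only [Finset.sum_const, Finset.card_univ, Fintype.card_fin, nsmul_eq_mul]
  push_cast
  have hm : (0:ℝ) ≤ m := Nat.cast_nonneg m
  have h1 : 0 ≤ (m:ℝ) * (1 + G) ^ 2 := by positivity
  nlinarith [sq_nonneg (1 + G + 2 * G' * ‖z‖ ^ 2)]

/-- the bump is bounded -/
lemma bu_le_one (hd : 0 < d) (x : EE m) : |bu m d c i x| ≤ 1 := by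
  have hg := g0_nonneg (m := m) hd (sq_nonneg ‖x - c‖)
  have h2 : |(x - c) i| ≤ ‖x - c‖ := by
    have := PiLp.norm_apply_le (x - c) i
    simpa using this
  unfold bu
  rw [abs_mul, abs_of_nonneg hg]
  have hs0 : 0 ≤ ‖x - c‖ ^ 2 := sq_nonneg _
  have ha := al_pos (m := m) (d := d) hs0
  have ha1 := al_le_one (m := m) (d := d) hs0
  have hA := al_sq (m := m) (d := d) hs0
  have hX0 := HH.χ_nonneg (‖x - c‖ ^ 2 / d)
  have hX1 := HH.χ_le_one (‖x - c‖ ^ 2 / d)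
  set a := al m d (‖x - c‖ ^ 2) with hadef
  set r := ‖x - c‖ with hr
  have hr0 : 0 ≤ r := norm_nonneg _
  have e : r ^ 2 / d ^ 2 = (r / d) ^ 2 := by rw [div_pow]
  rw [e] at hA
  set τ := r / d with hτ
  have hτ0 : 0 ≤ τ := by positivity
  have haτ : a * τ ≤ 1 := by
    by_cases hτ1 : τ ≤ 1
    · exact mul_le_one₀ ha1 hτ0 hτ1
    · push Not at hτ1
      have h1 : (a * τ ^ (m + 3)) ^ 2 ≤ 1 := by
        have : (a * τ ^ (m + 3)) ^ 2 = a ^ 2 * (τ ^ 2) ^ (m + 3) := by ring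
        rw [this]
        nlinarith [sq_nonneg a]
      have h2 : 0 ≤ a * τ ^ (m + 3) := by positivity
      have h3 : a * τ ^ (m + 3) ≤ 1 := by nlinarith
      have h4 : τ ^ 1 ≤ τ ^ (m + 3) := pow_le_pow_right₀ hτ1.le (by omega)
      rw [pow_one] at h4
      nlinarith
  have hg2 : g0 m d (r ^ 2) ≤ d⁻¹ * a := by
    unfold g0
    calc d⁻¹ * al m d (r ^ 2) * HH.χ (r ^ 2 / d) ≤ d⁻¹ * al m d (r ^ 2) * 1 := by gcongr
      _ = _ := mul_one _
  calc g0 m d (r ^ 2) * |(x - c) i| ≤ (d⁻¹ * a) * r := by gcongr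
    _ = a * τ := by rw [hτ]; field_simp
    _ ≤ 1 := haτ

/-- the bump vanishes far from its centre -/
lemma bu_zero (hd : 0 < d) {x : EE m} (hx : 2 * d ≤ ‖x - c‖ ^ 2) : bu m d c i x = 0 := by
  unfold bu g0
  rw [HH.χ_zero, mul_zero, zero_mul]
  rw [abs_of_nonneg (by positivity), le_div_iff₀ hd]
  exact hx

end Pool.Agent.Q175.BB
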