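import Pool.Agent.Q175.BB.Fin

/-! The weak form of the system. -/

set_option autoImplicit false

open MeasureTheory Laplacian InnerProductSpace Filter Topology Set
open scoped ContDiff ENNReal

namespace Pool.Agent.Q175.BB

variable {m : ℕ}

open WS (IsTest)

lemma lap_cont (N : ℕ) (i : Fin (m + 3)) : Continuous (Δ (uN m N i)) := by
  have hw2 : ContDiff ℝ 2 (uN m N i) := (uN_smooth N i).of_le (WithTop.coe_le_coe.mpr le_top)
  have : Δ (uN m N i) = fun x => ∑ k, fderiv ℝ (fun y => fderiv ℝ (uN m N i) y (stdOrthonormalBasis ℝ (EE m) k)) x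
    (stdOrthonormalBasis ℝ (EE m) k) := funext fun x => TR.laplacian_sum hw2 x
  rw [this]
  refine continuous_finsetSum _ fun k _ => ?_
  have h1 : ContDiff ℝ 1 (fun y => fderiv ℝ (uN m N i) y (stdOrthonormalBasis ℝ (EE m) k)) :=
    (hw2.fderiv_right (m := 1) (by norm_num)).clm_apply contDiff_const
  exact (h1.continuous_fderiv (by norm_num)).clm_apply continuous_const

lemma aa_meas : Measurable (aa m) := by
  have hgc : ∀ N i, Continuous (gradient (uN m N i)) := fun N i =>
    TR.grad_cont ((uN_smooth N i).of_le (WithTop.coe_le_coe.mpr le_top))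
  apply measurable_of_tendsto_metrizable (f := fun N x => (BB1 m \ {0}).indicator
    (fun x => (∑ i : Fin (m + 3), ‖gradient (uN m N i) x‖ ^ 2)⁻¹ • (WithLp.toLp 2 fun i => Δ (uN m N i) x : EE m)) x)
  · intro N
    refine Measurable.indicator ?_ (ms1.diff (measurableSet_singleton 0))
    have h1 : Continuous (fun x => ∑ i : Fin (m + 3), ‖gradient (uN m N i) x‖ ^ 2) :=
      continuous_finsetSum _ fun i _ => (hgc N i).norm.pow 2
    have h2 : Continuous (fun x => (WithLp.toLp 2 fun i => Δ (uN m N i) x : EE m)) :=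
      (PiLp.continuous_toLp 2 _).comp (continuous_pi fun i => lap_cont N i)
    exact h1.measurable.inv.smul h2.measurable
  · rw [tendsto_pi_nhds]
    intro x
    unfold aa
    by_cases hx : x ∈ BB1 m \ {0}
    · have h1 : ‖x‖ ≤ 1 := by
        have : ‖x‖ < 1 := by simpa [BB1] using hx.1
        exact this.le
      obtain ⟨j, hj⟩ := exists_Oj (m := m) (x := x) (by simpa using hx.2) h1
      apply tendsto_const_nhds.congr'
      filter_upwards [eventually_gt_atTop j] with N hN
      rw [indicator_of_mem hx, indicator_of_mem hx]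
      unfold SS
      simp only [grad_uN hN _ hj, lap_uN hN _ hj]
    · simp only [indicator_of_notMem hx]
      exact tendsto_const_nhds

/-- the quadratic growth of `|∇u|²` -/
lemma SS_int : IntegrableOn (SS m) (BB1 m) := by
  unfold SS
  refine integrable_finset_sum _ fun i _ => ?_
  have h := grad_memLp (m := m) i (p := 2) le_rfl (by have : (0:ℝ) ≤ m := Nat.cast_nonneg m; linarith)
  have e : ENNReal.ofReal 2 = 2 := by norm_num
  rw [e] at h
  exact h.integrable_norm_pow (by norm_num)

lemma weak_form (Φ : Fin (m + 3) → EE m → ℝ) (hΦ : ∀ i, IsTest (BB1 m) (Φ i)) :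
    -∫ x in BB1 m, ∑ i, inner ℝ (gradient (us m i) x) (gradient (Φ i) x) =
      ∫ x in BB1 m, ∑ i, (SS m x • aa m x) i * Φ i x := by
  obtain ⟨C, hC, hb⟩ := aa_bdd (m := m)
  have i1 : ∀ i ∈ Finset.univ, IntegrableOn (fun x => inner ℝ (gradient (us m i) x) (gradient (Φ i) x)) (BB1 m) := by
    intro i _
    obtain ⟨hs, hc, hsub⟩ := hΦ i
    have hs1 : ContDiff ℝ 1 (Φ i) := hs.of_le (WithTop.coe_le_coe.mpr le_top)
    have hgφ := TR.grad_cont hs1
    obtain ⟨B1, hB1⟩ := hgφ.bounded_above_of_compact_support (TR.grad_supp hc)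
    have hg := (grad_memLp (m := m) i (p := 2) le_rfl (by have : (0:ℝ) ≤ m := Nat.cast_nonneg m; linarith))
    have := fin1 (m := m)
    have hg1 : IntegrableOn (gradient (us m i)) (BB1 m) := hg.integrable (by norm_num)
    refine Integrable.mono' (hg1.norm.const_mul B1) ((grad_meas i).inner hgφ.aestronglyMeasurable) ?_
    filter_upwards with x
    calc ‖inner ℝ (gradient (us m i) x) (gradient (Φ i) x)‖ ≤ ‖gradient (us m i) x‖ * ‖gradient (Φ i) x‖ := norm_inner_le_norm _ _
      _ ≤ ‖gradient (us m i) x‖ * B1 := by gcongr; exact hB1 x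
      _ = _ := mul_comm _ _
  have i2 : ∀ i ∈ Finset.univ, IntegrableOn (fun x => (SS m x • aa m x) i * Φ i x) (BB1 m) := by
    intro i _
    obtain ⟨hs, hc, hsub⟩ := hΦ i
    obtain ⟨B2, hB2⟩ := hs.continuous.bounded_above_of_compact_support hc
    have hB20 : 0 ≤ B2 := (norm_nonneg _).trans (hB2 0)
    have hm : AEStronglyMeasurable (fun x => (SS m x • aa m x) i * Φ i x) (volume.restrict (BB1 m)) := by
      have h1 : AEStronglyMeasurable (fun x => SS m x • aa m x) (volume.restrict (BB1 m)) :=
        SS_int.aestronglyMeasurable.smul aa_meas.aestronglyMeasurable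
      have h2 : AEStronglyMeasurable (fun x => (SS m x • aa m x) i) (volume.restrict (BB1 m)) :=
        (EuclideanSpace.proj (𝕜 := ℝ) i).continuous.comp_aestronglyMeasurable h1
      exact h2.mul hs.continuous.aestronglyMeasurable
    refine Integrable.mono' (SS_int.const_mul (C * B2)) hm ?_
    filter_upwards with x
    rw [norm_mul, PiLp.smul_apply, norm_smul, Real.norm_eq_abs (SS m x), abs_of_nonneg (SS_nonneg x)]
    have h1 : ‖aa m x i‖ ≤ C := (PiLp.norm_apply_le _ _).trans (hb x)
    have h2 := hB2 x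
    have h3 := SS_nonneg x
    calc SS m x * ‖aa m x i‖ * ‖Φ i x‖ ≤ SS m x * C * B2 := by gcongr
      _ = _ := by ring
  rw [integral_finset_sum _ i1, integral_finset_sum _ i2, ← Finset.sum_neg_distrib]
  refine Finset.sum_congr rfl fun i _ => ?_
  rw [weak_lap i (hΦ i), neg_neg]
  apply integral_congr_ae
  filter_upwards [aa_eq (m := m) i] with x hx
  rw [← hx, PiLp.smul_apply, smul_eq_mul]

end Pool.Agent.Q175.BB
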