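import Pool.Agent.Q175.BB.Main

/-! Integrability, the Morrey quantities and the discontinuity. -/

set_option autoImplicit false

open MeasureTheory Laplacian InnerProductSpace Filter Topology Set
open scoped ContDiff ENNReal

namespace Pool.Agent.Q175.BB

variable {m : ℕ}

lemma us_cont {x : EE m} (hx : x ≠ 0) (hx1 : ‖x‖ ≤ 1) (i : Fin (m + 3)) : ContinuousAt (us m i) x := by
  obtain ⟨j, hj⟩ := exists_Oj hx hx1
  have h1 : ContinuousAt (fun y => y i + bj m j i y) x :=
    (((coord_smooth i).continuous).add (bu_smooth (m := m) (d := dj j) (c := cj m j) (i := i)).continuous).continuousAt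
  exact h1.congr (us_nhds i hj).symm

lemma us_meas (i : Fin (m + 3)) : AEStronglyMeasurable (us m i) (volume.restrict (BB1 m)) := by
  apply aestronglyMeasurable_of_tendsto_ae atTop (f := fun N => uN m N i)
    (fun N => (uN_smooth N i).continuous.aestronglyMeasurable)
  filter_upwards [ae_Oj (m := m)] with x hx
  obtain ⟨-, j, hj⟩ := hx
  apply tendsto_const_nhds.congr'
  filter_upwards [eventually_gt_atTop j] with N hN
  rw [uN_eq i hj, if_pos hN, us_eq i hj]

lemma grad_meas (i : Fin (m + 3)) : AEStronglyMeasurable (gradient (us m i)) (volume.restrict (BB1 m)) := by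
  apply aestronglyMeasurable_of_tendsto_ae atTop (f := fun N => gradient (uN m N i))
    (fun N => (TR.grad_cont ((uN_smooth N i).of_le (WithTop.coe_le_coe.mpr le_top))).aestronglyMeasurable)
  filter_upwards [ae_Oj (m := m)] with x hx
  obtain ⟨-, j, hj⟩ := hx
  apply tendsto_const_nhds.congr'
  filter_upwards [eventually_gt_atTop j] with N hN
  rw [grad_uN hN i hj]

lemma us_memLp (i : Fin (m + 3)) (p : ℝ≥0∞) : MemLp (us m i) p (volume.restrict (BB1 m)) := by
  have := fin1 (m := m)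
  refine MemLp.of_bound (us_meas i) 2 ?_
  filter_upwards [ae_Oj (m := m)] with x hx
  obtain ⟨h1, j, hj⟩ := hx
  have h2 : ‖x‖ < 1 := by simpa [BB1] using h1
  have := us_le i hj
  rw [Real.norm_eq_abs]
  linarith

/-- The bound of `|∇u|^p`. -/
lemma SS_le {p : ℝ} (hp : 2 ≤ p) : ∃ L : ℝ, 0 ≤ L ∧ ∀ x j, x ∈ Oj m j →
    SS m x ^ (p / 2) ≤ L * (1 + hj m j x ^ p) := by
  obtain ⟨K, hK0, hK⟩ := bound_dχ
  have hm : (0:ℝ) ≤ m := Nat.cast_nonneg m
  set C0 := (m + 4 : ℝ) + 4 * K with hC0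
  have hC00 : 0 ≤ C0 := by positivity
  refine ⟨((m + 3 : ℝ) * (2 * (1 + C0)) ^ 2) ^ (p / 2), by positivity, fun x j hx => ?_⟩
  have hh := hj_nonneg (m := m) j x
  set h := hj m j x
  have h1 : SS m x ≤ (m + 3 : ℝ) * (1 + C0 * h) ^ 2 := by
    unfold SS
    refine (Finset.sum_le_sum fun i _ => pow_le_pow_left₀ (norm_nonneg _) (grad_us_le hK0 hK j i hx) 2).trans (le_of_eq ?_)
    simp only [Finset.sum_const, Finset.card_univ, Fintype.card_fin, nsmul_eq_mul]
    push_cast
    rfl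
  have h2 : 1 + C0 * h ≤ 2 * (1 + C0) * max 1 h := by
    have h3 := le_max_left 1 h
    have h4 := le_max_right 1 h
    nlinarith [mul_nonneg hC00 hh, mul_nonneg hC00 (by linarith : (0:ℝ) ≤ max 1 h - h)]
  have h3 : SS m x ≤ ((m + 3 : ℝ) * (2 * (1 + C0)) ^ 2) * (max 1 h) ^ 2 := by
    calc SS m x ≤ (m + 3 : ℝ) * (1 + C0 * h) ^ 2 := h1
      _ ≤ (m + 3 : ℝ) * (2 * (1 + C0) * max 1 h) ^ 2 := by gcongr
      _ = _ := by ring
  have hmax : 0 ≤ max 1 h := le_max_of_le_left zero_le_one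
  calc SS m x ^ (p / 2) ≤ (((m + 3 : ℝ) * (2 * (1 + C0)) ^ 2) * (max 1 h) ^ 2) ^ (p / 2) :=
        Real.rpow_le_rpow (SS_nonneg x) h3 (by linarith)
    _ = ((m + 3 : ℝ) * (2 * (1 + C0)) ^ 2) ^ (p / 2) * (max 1 h) ^ p := by
        rw [Real.mul_rpow (by positivity) (by positivity), ← Real.rpow_natCast (max 1 h) 2, ← Real.rpow_mul hmax]
        congr 2
        push_cast
        ring
    _ ≤ ((m + 3 : ℝ) * (2 * (1 + C0)) ^ 2) ^ (p / 2) * (1 + h ^ p) := by
        refine mul_le_mul_of_nonneg_left ?_ (by positivity)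
        rcases le_total 1 h with h5 | h5
        · rw [max_eq_right h5]
          linarith
        · rw [max_eq_left h5, Real.one_rpow]
          have : 0 ≤ h ^ p := Real.rpow_nonneg hh _
          linarith

/-- the integral of `|∇u|^p` over subsets -/
lemma lint_SS {p : ℝ} (hp : 2 ≤ p) : ∃ L : ℝ, 0 ≤ L ∧ ∀ A : Set (EE m), MeasurableSet A → A ⊆ BB1 m →
    ∫⁻ x in A, ENNReal.ofReal (SS m x ^ (p / 2)) ≤ ENNReal.ofReal L * (volume A + ∫⁻ x in A, DD m p x) := by
  obtain ⟨L, hL, h⟩ := SS_le (m := m) hp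
  refine ⟨L, hL, fun A hA hAB => ?_⟩
  have h1 : ∫⁻ x in A, ENNReal.ofReal (SS m x ^ (p / 2)) ≤ ∫⁻ x in A, ENNReal.ofReal L * (1 + DD m p x) := by
    apply lintegral_mono_ae
    have h2 := ae_restrict_of_ae_restrict_of_subset hAB (ae_Oj (m := m))
    filter_upwards [h2] with x hx
    obtain ⟨-, j, hj⟩ := hx
    rw [DD_eq (by linarith) hj]
    have h3 := hj_nonneg (m := m) j x
    have h4 : 0 ≤ BB.hj m j x ^ p := Real.rpow_nonneg h3 _
    rw [← ENNReal.ofReal_one, ← ENNReal.ofReal_add zero_le_one h4, ← ENNReal.ofReal_mul hL]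
    exact ENNReal.ofReal_le_ofReal (h x j hj)
  refine h1.trans (le_of_eq ?_)
  rw [lintegral_const_mul' _ _ ENNReal.ofReal_ne_top, lintegral_add_left measurable_const]
  simp

lemma grad_memLp (i : Fin (m + 3)) {p : ℝ} (hp : 2 ≤ p) (hpn : p < m + 3) :
    MemLp (gradient (us m i)) (ENNReal.ofReal p) (volume.restrict (BB1 m)) := by
  refine ⟨grad_meas i, ?_⟩
  have hp0 : 0 < p := by linarith
  rw [eLpNorm_lt_top_iff_lintegral_rpow_enorm_lt_top (by simpa using hp0) ENNReal.ofReal_ne_top,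
    ENNReal.toReal_ofReal hp0.le]
  obtain ⟨L, hL, h⟩ := lint_SS (m := m) hp
  have h1 := h (BB1 m) ms1 le_rfl
  have h2 : ∫⁻ x in BB1 m, ‖gradient (us m i) x‖ₑ ^ p ≤ ∫⁻ x in BB1 m, ENNReal.ofReal (SS m x ^ (p / 2)) := by
    apply lintegral_mono
    intro x
    simp only
    rw [← ofReal_norm, ENNReal.ofReal_rpow_of_nonneg (norm_nonneg _) hp0.le]
    apply ENNReal.ofReal_le_ofReal
    have h3 : ‖gradient (us m i) x‖ ^ 2 ≤ SS m x :=
      Finset.single_le_sum (f := fun k : Fin (m + 3) => ‖gradient (us m k) x‖ ^ 2) (fun _ _ => by positivity) (Finset.mem_univ i)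
    calc ‖gradient (us m i) x‖ ^ p = (‖gradient (us m i) x‖ ^ 2) ^ (p / 2) := by
          rw [← Real.rpow_natCast, ← Real.rpow_mul (norm_nonneg _)]
          congr 1
          push_cast
          ring
      _ ≤ SS m x ^ (p / 2) := Real.rpow_le_rpow (by positivity) h3 (by linarith)
  refine lt_of_le_of_lt (h2.trans h1) ?_
  refine ENNReal.mul_lt_top ENNReal.ofReal_lt_top (ENNReal.add_lt_top.mpr ⟨?_, ?_⟩)
  · exact measure_ball_lt_top
  · exact lt_top_iff_ne_top.mpr (int_DD1 hp hpn)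

lemma vol_ball (x : EE m) {r : ℝ} (hr : 0 ≤ r) : volume (Metric.ball x r) = ENNReal.ofReal (r ^ (m + 3 : ℝ)) * volume (Metric.ball (0 : EE m) 1) := by
  rw [Measure.addHaar_ball volume x hr, finrank_euclideanSpace_fin]
  congr 2
  rw [← Real.rpow_natCast]; push_cast; rfl

/-- the Morrey quantity at the origin -/
lemma morrey_zero {p : ℝ} (hp : 2 ≤ p) (hpn : p < m + 3) :
    Tendsto (fun r : ℝ => ENNReal.ofReal (r ^ (p - (m + 3 : ℝ))) *
      ∫⁻ x in Metric.ball (0 : EE m) r, ENNReal.ofReal (SS m x ^ (p / 2))) (𝓝[>] 0) (𝓝 0) := by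
  obtain ⟨L, hL, h⟩ := lint_SS (m := m) hp
  have hp0 : 0 < p := by linarith
  set V := volume (Metric.ball (0 : EE m) 1) with hV
  have hVt : V ≠ ⊤ := measure_ball_lt_top.ne
  -- the two bounds
  have t1 : Tendsto (fun r : ℝ => ENNReal.ofReal L * (ENNReal.ofReal (r ^ p) * V +
      ∫⁻ x in Metric.ball (0 : EE m) r, ENNReal.ofReal (‖x‖ ^ (p - (m + 3))) * DD m p x)) (𝓝[>] 0) (𝓝 0) := by
    have a1 : Tendsto (fun r : ℝ => ENNReal.ofReal (r ^ p) * V) (𝓝[>] 0) (𝓝 0) := by
      have b1 : Tendsto (fun r : ℝ => r ^ p) (𝓝[>] 0) (𝓝 0) := by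
        have : ContinuousAt (fun r : ℝ => r ^ p) 0 := Real.continuousAt_rpow_const _ _ (Or.inr hp0.le)
        have h3 := this.tendsto
        rw [Real.zero_rpow hp0.ne'] at h3
        exact h3.mono_left nhdsWithin_le_nhds
      have b2 := (ENNReal.tendsto_ofReal b1)
      rw [ENNReal.ofReal_zero] at b2
      have b3 := ENNReal.Tendsto.mul_const b2 (Or.inr hVt)
      rwa [zero_mul] at b3
    have a2 : Tendsto (fun r : ℝ => ∫⁻ x in Metric.ball (0 : EE m) r, ENNReal.ofReal (‖x‖ ^ (p - (m + 3))) * DD m p x)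
        (𝓝[>] 0) (𝓝 0) := by
      apply tendsto_setLIntegral_zero (int_DD hp hpn)
      have b1 : Tendsto (fun r : ℝ => ENNReal.ofReal (r ^ (m + 3 : ℝ)) * V) (𝓝[>] 0) (𝓝 0) := by
        have hm : (0:ℝ) ≤ m := Nat.cast_nonneg m
        have c1 : Tendsto (fun r : ℝ => r ^ (m + 3 : ℝ)) (𝓝[>] 0) (𝓝 0) := by
          have : ContinuousAt (fun r : ℝ => r ^ (m + 3 : ℝ)) 0 := Real.continuousAt_rpow_const _ _ (Or.inr (by positivity))
          have h3 := this.tendsto
          rw [Real.zero_rpow (by positivity)] at h3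
          exact h3.mono_left nhdsWithin_le_nhds
        have b2 := (ENNReal.tendsto_ofReal c1)
        rw [ENNReal.ofReal_zero] at b2
        have b3 := ENNReal.Tendsto.mul_const b2 (Or.inr hVt)
        rwa [zero_mul] at b3
      refine b1.congr' ?_
      filter_upwards [self_mem_nhdsWithin] with r hr
      have hr' : (0:ℝ) < r := hr
      rw [Function.comp_apply, vol_ball 0 hr'.le]
    have a3 := ENNReal.Tendsto.const_mul (a := ENNReal.ofReal L) (a1.add a2) (Or.inr ENNReal.ofReal_ne_top)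
    rwa [add_zero, mul_zero] at a3
  refine tendsto_of_tendsto_of_tendsto_of_le_of_le' tendsto_const_nhds t1 (Eventually.of_forall fun _ => zero_le) ?_
  filter_upwards [Ioo_mem_nhdsGT (show (0:ℝ) < 1 by norm_num)] with r hr
  obtain ⟨hr0, hr1⟩ := hr
  have h1 := h (Metric.ball 0 r) measurableSet_ball (Metric.ball_subset_ball hr1.le)
  calc ENNReal.ofReal (r ^ (p - (m + 3 : ℝ))) * ∫⁻ x in Metric.ball (0 : EE m) r, ENNReal.ofReal (SS m x ^ (p / 2))
      ≤ ENNReal.ofReal (r ^ (p - (m + 3 : ℝ))) * (ENNReal.ofReal L * (volume (Metric.ball (0 : EE m) r) +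
        ∫⁻ x in Metric.ball (0 : EE m) r, DD m p x)) := by gcongr
    _ = ENNReal.ofReal L * (ENNReal.ofReal (r ^ (p - (m + 3 : ℝ))) * volume (Metric.ball (0 : EE m) r) +
        ENNReal.ofReal (r ^ (p - (m + 3 : ℝ))) * ∫⁻ x in Metric.ball (0 : EE m) r, DD m p x) := by ring
    _ ≤ _ := by
        refine mul_le_mul' le_rfl (add_le_add (le_of_eq ?_) ?_)
        · rw [vol_ball 0 hr0.le, ← mul_assoc, ← ENNReal.ofReal_mul (by positivity), ← Real.rpow_add hr0]
          have : p - (m + 3 : ℝ) + (m + 3) = p := by ring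
          rw [this]
        · rw [← lintegral_const_mul' _ _ ENNReal.ofReal_ne_top]
          apply lintegral_mono_ae
          have h0 : ∀ᵐ x ∂(volume.restrict (Metric.ball (0 : EE m) r)), x ≠ (0 : EE m) :=
            ae_restrict_of_ae (compl_mem_ae_iff.mpr (measure_singleton _))
          filter_upwards [h0, ae_restrict_mem measurableSet_ball] with x hx hx2
          have h3 : ‖x‖ ≤ r := by
            have : ‖x‖ < r := by simpa using hx2
            exact this.le
          have h4 : p - (m + 3 : ℝ) ≤ 0 := by linarith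
          have h5 : r ^ (p - (m + 3 : ℝ)) ≤ ‖x‖ ^ (p - (m + 3 : ℝ)) :=
            Real.rpow_le_rpow_of_nonpos (norm_pos_iff.mpr hx) h3 h4
          exact mul_le_mul' (ENNReal.ofReal_le_ofReal h5) le_rfl

/-- the Morrey quantity at the other points -/
lemma morrey_ne {p : ℝ} (hp : 2 ≤ p) {x0 : EE m} (hx0 : x0 ≠ 0) (hx1 : ‖x0‖ < 1) :
    Tendsto (fun r : ℝ => ENNReal.ofReal (r ^ (p - (m + 3 : ℝ))) *
      ∫⁻ x in Metric.ball x0 r, ENNReal.ofReal (SS m x ^ (p / 2))) (𝓝[>] 0) (𝓝 0) := by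
  obtain ⟨L, hL, h⟩ := SS_le (m := m) hp
  obtain ⟨j, hj⟩ := exists_Oj hx0 hx1.le
  have hp0 : 0 < p := by linarith
  obtain ⟨ρ, hρ, hball⟩ := Metric.isOpen_iff.mp (Oj_open (m := m) j) x0 hj
  have hd := dj_pos j
  set M := L * (1 + (dj j)⁻¹ ^ p) with hM
  have hM0 : 0 ≤ M := by positivity
  have hb : ∀ x ∈ Oj m j, SS m x ^ (p / 2) ≤ M := by
    intro x hx
    refine (h x j hx).trans ?_
    rw [hM]
    have h1 : BB.hj m j x ≤ (dj j)⁻¹ := by
      by_cases hx2 : ‖x - cj m j‖ ^ 2 ≤ 2 * dj j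
      · rw [hj_in hx2]
        have := al_le_one (m := m) (d := dj j) (sq_nonneg ‖x - cj m j‖)
        calc (dj j)⁻¹ * al m (dj j) (‖x - cj m j‖ ^ 2) ≤ (dj j)⁻¹ * 1 := by gcongr
          _ = _ := mul_one _
      · rw [hj_out hx2]
        positivity
    have h2 := Real.rpow_le_rpow (hj_nonneg j x) h1 hp0.le
    gcongr
  set V := volume (Metric.ball (0 : EE m) 1) with hV
  have hVt : V ≠ ⊤ := measure_ball_lt_top.ne
  have a1 : Tendsto (fun r : ℝ => ENNReal.ofReal M * (ENNReal.ofReal (r ^ p) * V)) (𝓝[>] 0) (𝓝 0) := by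
    have b1 : Tendsto (fun r : ℝ => r ^ p) (𝓝[>] 0) (𝓝 0) := by
      have : ContinuousAt (fun r : ℝ => r ^ p) 0 := Real.continuousAt_rpow_const _ _ (Or.inr hp0.le)
      have h3 := this.tendsto
      rw [Real.zero_rpow hp0.ne'] at h3
      exact h3.mono_left nhdsWithin_le_nhds
    have b2 := (ENNReal.tendsto_ofReal b1)
    rw [ENNReal.ofReal_zero] at b2
    have b3 := ENNReal.Tendsto.mul_const b2 (Or.inr hVt)
    rw [zero_mul] at b3
    have b4 := ENNReal.Tendsto.const_mul (a := ENNReal.ofReal M) b3 (Or.inr ENNReal.ofReal_ne_top)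
    rwa [mul_zero] at b4
  refine tendsto_of_tendsto_of_tendsto_of_le_of_le' tendsto_const_nhds a1 (Eventually.of_forall fun _ => zero_le) ?_
  filter_upwards [Ioo_mem_nhdsGT hρ] with r hr
  obtain ⟨hr0, hr1⟩ := hr
  have h1 : ∫⁻ x in Metric.ball x0 r, ENNReal.ofReal (SS m x ^ (p / 2)) ≤ ENNReal.ofReal M * volume (Metric.ball x0 r) := by
    calc ∫⁻ x in Metric.ball x0 r, ENNReal.ofReal (SS m x ^ (p / 2)) ≤ ∫⁻ _ in Metric.ball x0 r, ENNReal.ofReal M := by
          apply lintegral_mono_ae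
          filter_upwards [ae_restrict_mem measurableSet_ball] with x hx
          exact ENNReal.ofReal_le_ofReal (hb x (hball (Metric.ball_subset_ball hr1.le hx)))
      _ = _ := by simp
  calc ENNReal.ofReal (r ^ (p - (m + 3 : ℝ))) * ∫⁻ x in Metric.ball x0 r, ENNReal.ofReal (SS m x ^ (p / 2))
      ≤ ENNReal.ofReal (r ^ (p - (m + 3 : ℝ))) * (ENNReal.ofReal M * volume (Metric.ball x0 r)) := by gcongr
    _ = ENNReal.ofReal M * (ENNReal.ofReal (r ^ (p - (m + 3 : ℝ))) * ENNReal.ofReal (r ^ (m + 3 : ℝ)) * V) := by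
        rw [vol_ball x0 hr0.le]; ring
    _ = _ := by
        rw [← ENNReal.ofReal_mul (by positivity), ← Real.rpow_add hr0]
        have : p - (m + 3 : ℝ) + (m + 3) = p := by ring
        rw [this]

/-- the solution as a map -/
noncomputable def uu (m : ℕ) (x : EE m) : EE m := WithLp.toLp 2 fun i => us m i x

lemma cj_mem (j : ℕ) : cj m j ∈ Oj m j := by
  have := rj_pos j
  have h := cj_norm (m := m) j
  constructor <;> rw [h] <;> linarith

/-- a second point -/
noncomputable def yj (m : ℕ) (j : ℕ) : EE m := cj m j + dj j • EuclideanSpace.single 0 1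

lemma yj_mem (j : ℕ) : yj m j ∈ Oj m j ∧ ‖yj m j‖ ≤ 7 / 8 * rj j := by
  have hr := rj_pos j
  have hr1 := rj_le j
  have h : ‖yj m j‖ = 3 / 4 * rj j + dj j := by
    have e : yj m j = (3 / 4 * rj j + dj j) • EuclideanSpace.single 0 1 := by
      unfold yj cj
      rw [← add_smul]
    have hd := dj_pos j
    rw [e, norm_smul, Real.norm_eq_abs, abs_of_pos (by positivity)]
    simp
  have h2 : dj j ≤ rj j / 256 := by
    unfold dj
    nlinarith
  refine ⟨⟨?_, ?_⟩, ?_⟩ <;> rw [h] <;> linarith [dj_pos j]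

lemma osc (j : ℕ) : 1 / 2 ≤ us m 0 (yj m j) - us m 0 (cj m j) := by
  have hd := dj_pos j
  have hd1 := dj_le j
  rw [us_eq 0 (yj_mem j).1, us_eq 0 (cj_mem j)]
  have e1 : bj m j 0 (cj m j) = 0 := by
    unfold bj bu
    simp
  have e2 : yj m j - cj m j = dj j • EuclideanSpace.single 0 1 := by unfold yj; abel
  have e3 : ‖yj m j - cj m j‖ ^ 2 = dj j ^ 2 := by
    rw [e2, norm_smul, Real.norm_eq_abs, abs_of_pos hd]
    simp
  have e4 : bj m j 0 (yj m j) = (√2)⁻¹ := by
    unfold bj bu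
    rw [e3, e2]
    unfold g0 al
    have h1 : dj j ^ 2 / dj j ^ 2 = 1 := div_self (by positivity)
    have h2 : HH.χ (dj j ^ 2 / dj j) = 1 := by
      apply HH.χ_one
      rw [sq, mul_div_assoc, div_self hd.ne', mul_one, abs_of_pos hd]
      exact hd1
    rw [h1, h2, one_pow]
    norm_num
    field_simp
  have e5 : (yj m j) 0 = (cj m j) 0 + dj j := by
    unfold yj
    simp
  rw [e1, e4, e5]
  have h3 : (1:ℝ) / 2 ≤ (√2)⁻¹ := by
    rw [one_div]
    apply inv_anti₀ (by positivity)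
    rw [Real.sqrt_le_left (by norm_num)]
    norm_num
  linarith

/-- the solution is not Hölder continuous -/
theorem not_hoelder : ¬ ∃ (v : EE m → EE m) (C : NNReal) (α : NNReal), 0 < α ∧
    HolderOnWith C α v (Metric.ball 0 (1 / 2)) ∧ uu m =ᵐ[volume.restrict (Metric.ball 0 (1 / 2))] v := by
  rintro ⟨v, C, α, hα, hv, hae⟩
  set A : Set (EE m) := Metric.ball 0 (1 / 2) \ {0} with hA
  have hAo : IsOpen A := Metric.isOpen_ball.sdiff isClosed_singleton
  have hvc : ContinuousOn v A := (hv.continuousOn hα).mono sdiff_subset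
  have huc : ContinuousOn (uu m) A := by
    intro x hx
    have h1 : ‖x‖ < 1 / 2 := by simpa using hx.1
    have h2 : ContinuousAt (uu m) x := by
      apply (PiLp.continuous_toLp 2 _).continuousAt.comp
      exact continuousAt_pi.mpr fun i => us_cont (by simpa using hx.2) (by linarith) i
    exact h2.continuousWithinAt
  have heq := Measure.eqOn_open_of_ae_eq (ae_restrict_of_ae_restrict_of_subset sdiff_subset hae) hAo huc hvc
  have hmem : ∀ j, 1 ≤ j → cj m j ∈ A ∧ yj m j ∈ A := by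
    intro j hj
    have h1 : rj j ≤ rj 0 / 2 := rj_succ (by omega)
    have h2 : rj 0 = 1 := by unfold rj; simp
    have h3 := rj_pos j
    have h4 := cj_norm (m := m) j
    have h5 := (yj_mem (m := m) j).2
    have h6 := (yj_mem (m := m) j).1.1
    refine ⟨⟨by simp only [mem_ball_zero_iff]; linarith, ?_⟩, ⟨by simp only [mem_ball_zero_iff]; linarith, ?_⟩⟩
    · intro h; rw [mem_singleton_iff] at h; rw [h, norm_zero] at h4; linarith
    · intro h; rw [mem_singleton_iff] at h; rw [h, norm_zero] at h6; linarith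
  have hb : ∀ j, 1 ≤ j → (1:ℝ) / 2 ≤ C * dj j ^ (α : ℝ) := by
    intro j hj
    obtain ⟨hc, hy⟩ := hmem j hj
    have h1 := hv.dist_le (sdiff_subset hy) (sdiff_subset hc)
    rw [← heq hy, ← heq hc] at h1
    have h2 : dist (yj m j) (cj m j) = dj j := by
      rw [dist_eq_norm]
      have e2 : yj m j - cj m j = dj j • EuclideanSpace.single 0 1 := by unfold yj; abel
      rw [e2, norm_smul, Real.norm_eq_abs, abs_of_pos (dj_pos j)]
      simp
    rw [h2] at h1
    have h3 : |us m 0 (yj m j) - us m 0 (cj m j)| ≤ dist (uu m (yj m j)) (uu m (cj m j)) := by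
      rw [dist_eq_norm]
      have := PiLp.norm_apply_le (uu m (yj m j) - uu m (cj m j)) 0
      simpa [uu] using this
    have h4 := osc (m := m) j
    exact (h4.trans (le_abs_self _)).trans (h3.trans h1)
  have hlim : Tendsto (fun j : ℕ => (C:ℝ) * dj j ^ (α : ℝ)) atTop (𝓝 0) := by
    have a1 : Tendsto (fun j : ℕ => rj j) atTop (𝓝 0) :=
      tendsto_pow_atTop_nhds_zero_of_lt_one (by norm_num) (by norm_num)
    have a2 : Tendsto (fun j : ℕ => dj j) atTop (𝓝 0) := by
      have := (a1.pow 2).div_const 256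
      simpa [dj] using this
    have a3 : Tendsto (fun j : ℕ => dj j ^ (α : ℝ)) atTop (𝓝 0) := by
      have h1 : ContinuousAt (fun r : ℝ => r ^ (α : ℝ)) 0 := Real.continuousAt_rpow_const _ _ (Or.inr (by exact_mod_cast hα.le))
      have h2 := h1.tendsto.comp a2
      rw [Real.zero_rpow (by exact_mod_cast hα.ne')] at h2
      exact h2
    have a4 := a3.const_mul (C:ℝ)
    rwa [mul_zero] at a4
  have h5 := (hlim.eventually (Iio_mem_nhds (show (0:ℝ) < 1 / 2 by norm_num))).and (eventually_ge_atTop 1)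
  obtain ⟨j, hj1, hj2⟩ := h5.exists
  have := hb j hj2
  exact absurd hj1 (not_lt.mpr this)

end Pool.Agent.Q175.BB
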