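import Pool.Agent.Q175.BB.Bump

/-! The integral of the square of `al`. -/

set_option autoImplicit false

open MeasureTheory InnerProductSpace Filter Topology Set
open scoped ENNReal

namespace Pool.Agent.Q175.BB

variable {m : ℕ} {d : ℝ}

lemma al_sq_eq {s : ℝ} (hs : 0 ≤ s) : al m d s ^ 2 = (1 + (s / d ^ 2) ^ (m + 3))⁻¹ := by
  have := al_sq (m := m) (d := d) hs
  exact eq_inv_of_mul_eq_one_left this

noncomputable def fr (m : ℕ) (d y : ℝ) : ℝ := al m d (y ^ 2) ^ 2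

lemma der_F (hd : 0 < d) (y : ℝ) :
    HasDerivAt (fun y : ℝ => d ^ (m + 3) / (m + 3 : ℝ) * Real.arctan ((y / d) ^ (m + 3)))
      (y ^ (m + 2) * fr m d y) y := by
  have h1 : HasDerivAt (fun s : ℝ => s / d) (1 / d) y := (hasDerivAt_id y).div_const _
  have h2 := ((h1.pow (m + 3)).arctan).const_mul (d ^ (m + 3) / (m + 3 : ℝ))
  refine h2.congr_deriv ?_
  unfold fr
  rw [al_sq_eq (sq_nonneg y)]
  have e : m + 3 - 1 = m + 2 := by omega
  simp only [Pi.pow_apply]
  rw [e]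
  have e2 : (y ^ 2 / d ^ 2) ^ (m + 3) = ((y / d) ^ (m + 3)) ^ 2 := by rw [← div_pow]; ring
  rw [e2]
  have h3 : (1:ℝ) + ((y / d) ^ (m + 3)) ^ 2 ≠ 0 := by positivity
  have hd0 : d ≠ 0 := hd.ne'
  have h4 : (m + 3 : ℝ) ≠ 0 := by positivity
  push_cast
  rw [div_pow y d (m + 2), pow_succ d (m + 2)]
  field_simp

lemma lim_F (hd : 0 < d) : Tendsto (fun y : ℝ => d ^ (m + 3) / (m + 3 : ℝ) * Real.arctan ((y / d) ^ (m + 3))) atTop
    (𝓝 (d ^ (m + 3) / (m + 3 : ℝ) * (Real.pi / 2))) := by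
  apply Tendsto.const_mul
  have h1 : Tendsto (fun y : ℝ => (y / d) ^ (m + 3)) atTop atTop :=
    (tendsto_pow_atTop (by omega)).comp (tendsto_id.atTop_div_const hd)
  exact (tendsto_nhds_of_tendsto_nhdsWithin Real.tendsto_arctan_atTop).comp h1

lemma al_int (hd : 0 < d) (c : EE m) :
    ∫⁻ x : EE m, ENNReal.ofReal (al m d (‖x - c‖ ^ 2) ^ 2) =
      ENNReal.ofReal (volume.real (Metric.ball (0 : EE m) 1) * (Real.pi / 2) * d ^ (m + 3)) := by
  have : Nonempty (Fin (m + 3)) := ⟨⟨0, by omega⟩⟩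
  have hnn : ∀ y, 0 ≤ fr m d y := fun y => sq_nonneg _
  have e : (m + 3) - 1 = m + 2 := by omega
  have hcont : ContinuousWithinAt (fun y : ℝ => d ^ (m + 3) / (m + 3 : ℝ) * Real.arctan ((y / d) ^ (m + 3))) (Ici 0) 0 :=
    (der_F hd 0).continuousAt.continuousWithinAt
  have i1 : IntegrableOn (fun y : ℝ => y ^ (m + 2) * fr m d y) (Ioi 0) :=
    integrableOn_Ioi_deriv_of_nonneg hcont (fun y _ => der_F hd y)
      (fun y hy => mul_nonneg (pow_nonneg (le_of_lt hy) _) (hnn y)) (lim_F hd)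
  have v1 : ∫ y in Ioi (0:ℝ), y ^ (m + 2) * fr m d y = d ^ (m + 3) / (m + 3 : ℝ) * (Real.pi / 2) := by
    rw [integral_Ioi_of_hasDerivAt_of_tendsto hcont (fun y _ => der_F hd y) i1 (lim_F hd)]
    simp
  have hint : Integrable (fun x : EE m => fr m d ‖x‖) := by
    rw [integrable_fun_norm_addHaar volume (f := fr m d), finrank_euclideanSpace_fin, e]
    simpa only [smul_eq_mul] using i1
  have hval : ∫ x : EE m, fr m d ‖x‖ = volume.real (Metric.ball (0 : EE m) 1) * (Real.pi / 2) * d ^ (m + 3) := by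
    rw [integral_fun_norm_addHaar volume (fr m d), finrank_euclideanSpace_fin, e]
    simp only [smul_eq_mul, nsmul_eq_mul]
    rw [v1]
    have h4 : (m + 3 : ℝ) ≠ 0 := by positivity
    push_cast
    field_simp
  rw [← hval, ofReal_integral_eq_lintegral_ofReal hint (Eventually.of_forall fun x => hnn _)]
  exact lintegral_sub_right_eq_self (fun x : EE m => ENNReal.ofReal (fr m d ‖x‖)) c

end Pool.Agent.Q175.BB
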