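import Pool.Agent.Q175.BB.Seq
import Pool.Agent.Q175.WS.Basic

/-! The weak equation and the Morrey condition. -/

set_option autoImplicit false

open MeasureTheory Laplacian InnerProductSpace Filter Topology Set
open scoped ContDiff ENNReal

namespace Pool.Agent.Q175.BB

variable {m : ℕ}

/-- the unit ball -/
def BB1 (m : ℕ) : Set (EE m) := Metric.ball 0 1

lemma ms1 : MeasurableSet (BB1 m) := Metric.isOpen_ball.measurableSet

lemma ae_Oj : ∀ᵐ x ∂(volume.restrict (BB1 m)), x ∈ BB1 m ∧ ∃ j, x ∈ Oj m j := by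
  have h0 : ∀ᵐ x ∂(volume.restrict (BB1 m)), x ≠ (0 : EE m) :=
    ae_restrict_of_ae (compl_mem_ae_iff.mpr (measure_singleton _))
  filter_upwards [h0, ae_restrict_mem ms1] with x hx hx1
  refine ⟨hx1, exists_Oj hx ?_⟩
  have : ‖x‖ < 1 := by simpa [BB1] using hx1
  exact this.le

lemma DD_meas (p : ℝ) : Measurable (DD m p) :=
  Measurable.tsum fun j => ((hj_meas j).pow_const p).ennreal_ofReal

lemma int_DD1 {p : ℝ} (hp : 2 ≤ p) (hpn : p < m + 3) : ∫⁻ x in BB1 m, DD m p x ≠ ⊤ := by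
  refine ne_top_of_le_ne_top (int_DD (m := m) hp hpn) ?_
  rw [← lintegral_indicator ms1]
  refine lintegral_mono_ae ?_
  have h0 : ∀ᵐ x : EE m, x ≠ 0 := compl_mem_ae_iff.mpr (measure_singleton _)
  filter_upwards [h0] with x hx
  by_cases hx1 : x ∈ BB1 m
  · rw [indicator_of_mem hx1]
    have h1 : ‖x‖ ≤ 1 := by
      have : ‖x‖ < 1 := by simpa [BB1] using hx1
      exact this.le
    have h2 : 1 ≤ ENNReal.ofReal (‖x‖ ^ (p - (m + 3))) := by
      rw [ENNReal.one_le_ofReal]
      exact Real.one_le_rpow_of_pos_of_le_one_of_nonpos (norm_pos_iff.mpr hx) h1 (by linarith)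
    calc DD m p x = 1 * DD m p x := (one_mul _).symm
      _ ≤ ENNReal.ofReal (‖x‖ ^ (p - (m + 3))) * DD m p x := by gcongr
  · rw [indicator_of_notMem hx1]
    exact zero_le

noncomputable def D2 (m : ℕ) (x : EE m) : ℝ := (DD m 2 x).toReal

lemma D2_int : IntegrableOn (D2 m) (BB1 m) :=
  integrable_toReal_of_lintegral_ne_top (DD_meas 2).aemeasurable (int_DD1 (m := m) le_rfl (by have : (0:ℝ) ≤ m := Nat.cast_nonneg m; linarith))

lemma D2_eq {j : ℕ} {x : EE m} (hx : x ∈ Oj m j) : D2 m x = hj m j x ^ 2 := by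
  unfold D2
  rw [DD_eq (by norm_num) hx, ENNReal.toReal_ofReal (Real.rpow_nonneg (hj_nonneg j x) _), Real.rpow_two]

lemma fin1 : IsFiniteMeasure (volume.restrict (BB1 m)) :=
  ⟨by rw [Measure.restrict_apply_univ]; exact measure_ball_lt_top⟩

/-- dominated convergence -/
lemma dct {F : ℕ → EE m → ℝ} {f : EE m → ℝ} {C : ℝ} (hF : ∀ N, Continuous (F N))
    (hb : ∀ N j x, x ∈ BB1 m → x ∈ Oj m j → |F N x| ≤ C * (2 + hj m j x ^ 2))
    (hl : ∀ N j x, x ∈ BB1 m → x ∈ Oj m j → j < N → F N x = f x) :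
    Tendsto (fun N => ∫ x in BB1 m, F N x) atTop (𝓝 (∫ x in BB1 m, f x)) := by
  have := fin1 (m := m)
  apply tendsto_integral_of_dominated_convergence (fun x => C * (2 + D2 m x))
  · exact fun N => (hF N).aestronglyMeasurable
  · exact ((integrable_const (2:ℝ)).add D2_int).const_mul C
  · intro N
    filter_upwards [ae_Oj (m := m)] with x hx
    obtain ⟨h1, j, h2⟩ := hx
    rw [D2_eq h2, Real.norm_eq_abs]
    exact hb N j x h1 h2
  · filter_upwards [ae_Oj (m := m)] with x hx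
    obtain ⟨h1, j, h2⟩ := hx
    apply tendsto_const_nhds.congr'
    filter_upwards [eventually_gt_atTop j] with N hN
    exact (hl N j x h1 h2 hN).symm

lemma grad_us_le {K : ℝ} (hK0 : 0 ≤ K) (hK : ∀ y, |deriv HH.χ y| ≤ K ∧ |deriv (deriv HH.χ) y| ≤ K)
    (j : ℕ) (i : Fin (m + 3)) {x : EE m} (hx : x ∈ Oj m j) : ‖gradient (us m i) x‖ ≤ 1 + ((m + 4 : ℝ) + 4 * K) * hj m j x := by
  rw [grad_us i hx]
  refine (norm_add_le _ _).trans ?_
  have h1 : ‖EuclideanSpace.single i (1:ℝ)‖ = 1 := by simp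
  rw [h1]
  have := grad_bj_le (m := m) hK0 hK j i x
  linarith

lemma grad_uN_le {K : ℝ} (hK0 : 0 ≤ K) (hK : ∀ y, |deriv HH.χ y| ≤ K ∧ |deriv (deriv HH.χ) y| ≤ K)
    (N j : ℕ) (i : Fin (m + 3)) {x : EE m} (hx : x ∈ Oj m j) :
    ‖gradient (uN m N i) x‖ ≤ 1 + ((m + 4 : ℝ) + 4 * K) * hj m j x := by
  by_cases hN : j < N
  · rw [grad_uN hN i hx]
    exact grad_us_le hK0 hK j i hx
  · rw [grad_uN' hN i hx]
    have h1 : ‖EuclideanSpace.single i (1:ℝ)‖ = 1 := by simp
    rw [h1]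
    have := hj_nonneg (m := m) j x
    have hm : (0:ℝ) ≤ m := Nat.cast_nonneg m
    have : 0 ≤ ((m + 4 : ℝ) + 4 * K) * hj m j x := by positivity
    linarith

lemma h_le {h : ℝ} (C : ℝ) (hC : 0 ≤ C) : 1 + C * h ≤ (1 + C) * (2 + h ^ 2) := by
  nlinarith [sq_nonneg (h - 1), sq_nonneg h, mul_nonneg hC (sq_nonneg (h - 1)), mul_nonneg hC (sq_nonneg h)]

open WS (IsTest)

/-- the weak gradient -/
lemma weak_grad (i : Fin (m + 3)) {φ : EE m → ℝ} (hφ : IsTest (BB1 m) φ) (e : EE m) :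
    ∫ x in BB1 m, us m i x * fderiv ℝ φ x e = -∫ x in BB1 m, inner ℝ (gradient (us m i) x) e * φ x := by
  obtain ⟨K, hK0, hK⟩ := bound_dχ
  obtain ⟨hs, hc, hsub⟩ := hφ
  have hs1 : ContDiff ℝ 1 φ := hs.of_le (WithTop.coe_le_coe.mpr le_top)
  have hdc : HasCompactSupport (fun x => fderiv ℝ φ x e) :=
    (hc.fderiv (𝕜 := ℝ)).comp_left (g := fun L : EE m →L[ℝ] ℝ => L e) (by simp)
  have hdv : Continuous (fun x => fderiv ℝ φ x e) := (hs1.continuous_fderiv (by norm_num)).clm_apply continuous_const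
  obtain ⟨B1, hB1⟩ := hdv.bounded_above_of_compact_support hdc
  obtain ⟨B2, hB2⟩ := hs.continuous.bounded_above_of_compact_support hc
  have hB10 : 0 ≤ B1 := (norm_nonneg _).trans (hB1 0)
  have hB20 : 0 ≤ B2 := (norm_nonneg _).trans (hB2 0)
  have hm : (0:ℝ) ≤ m := Nat.cast_nonneg m
  have hgc : ∀ N, Continuous (gradient (uN m N i)) := fun N =>
    TR.grad_cont ((uN_smooth N i).of_le (WithTop.coe_le_coe.mpr le_top))
  have hdN : ∀ N x, fderiv ℝ (uN m N i) x e = inner ℝ (gradient (uN m N i) x) e := by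
    intro N x
    have := ((uN_smooth (m := m) N i).differentiable (by simp) x).hasGradientAt.hasFDerivAt.fderiv
    rw [this]
    simp
  have L1 := dct (m := m) (F := fun N x => uN m N i x * fderiv ℝ φ x e) (f := fun x => us m i x * fderiv ℝ φ x e)
    (C := B1) (fun N => (uN_smooth N i).continuous.mul hdv) (by
      intro N j x hx hx2
      rw [abs_mul]
      have h1 := uN_le (m := m) (N := N) i hx2
      have h2 := hB1 x
      rw [Real.norm_eq_abs] at h2
      have h3 : ‖x‖ < 1 := by simpa [BB1] using hx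
      calc |uN m N i x| * |fderiv ℝ φ x e| ≤ 2 * B1 := by
            apply mul_le_mul (by linarith) h2 (abs_nonneg _) (by norm_num)
        _ ≤ B1 * (2 + hj m j x ^ 2) := by nlinarith [mul_nonneg hB10 (sq_nonneg (hj m j x))]) (by
      intro N j x hx hx2 hN
      rw [uN_eq i hx2, if_pos hN, us_eq i hx2])
  have L2 := dct (m := m) (F := fun N x => inner ℝ (gradient (uN m N i) x) e * φ x)
    (f := fun x => inner ℝ (gradient (us m i) x) e * φ x)
    (C := (1 + ((m + 4 : ℝ) + 4 * K)) * ‖e‖ * B2) (fun N => ((hgc N).inner continuous_const).mul hs.continuous) (by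
      intro N j x hx hx2
      rw [abs_mul]
      have h1 := grad_uN_le (m := m) hK0 hK N j i hx2
      have h2 := hB2 x
      rw [Real.norm_eq_abs] at h2
      have h3 := h_le (h := hj m j x) ((m + 4 : ℝ) + 4 * K) (by positivity)
      have h4 : |inner ℝ (gradient (uN m N i) x) e| ≤ ((1 + ((m + 4 : ℝ) + 4 * K)) * (2 + hj m j x ^ 2)) * ‖e‖ :=
        (abs_real_inner_le_norm _ _).trans (mul_le_mul_of_nonneg_right (h1.trans h3) (norm_nonneg _))
      calc |inner ℝ (gradient (uN m N i) x) e| * |φ x| ≤ (((1 + ((m + 4 : ℝ) + 4 * K)) * (2 + hj m j x ^ 2)) * ‖e‖) * B2 :=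
            mul_le_mul h4 h2 (abs_nonneg _) (by positivity)
        _ = _ := by ring) (by
      intro N j x hx hx2 hN
      rw [grad_uN hN i hx2])
  refine tendsto_nhds_unique L1 (L2.neg.congr fun N => ?_)
  have s := integral_mul_fderiv_eq_neg_fderiv_mul_of_integrable (μ := volume) (f := uN m N i)
      (g := φ) (v := e)
      ((((hgc N).inner continuous_const).congr fun x => (hdN N x).symm).mul hs.continuous |>.integrable_of_hasCompactSupport hc.mul_left)
      (((uN_smooth N i).continuous.mul hdv).integrable_of_hasCompactSupport hdc.mul_left)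
      (((uN_smooth N i).continuous.mul hs.continuous).integrable_of_hasCompactSupport hc.mul_left)
      (fun x _ => (uN_smooth N i).differentiable (by simp) x)
      (fun x _ => hs.differentiable (by simp) x)
  have e1 : ∫ x in BB1 m, uN m N i x * fderiv ℝ φ x e = ∫ x, uN m N i x * fderiv ℝ φ x e := by
    apply setIntegral_eq_integral_of_forall_compl_eq_zero
    intro x hx
    have h1 : x ∉ tsupport φ := fun h' => hx (hsub h')
    rw [notMem_tsupport_iff_eventuallyEq] at h1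
    rw [h1.fderiv_eq]
    simp
  have e2 : ∫ x in BB1 m, inner ℝ (gradient (uN m N i) x) e * φ x = ∫ x, inner ℝ (gradient (uN m N i) x) e * φ x := by
    apply setIntegral_eq_integral_of_forall_compl_eq_zero
    intro x hx
    rw [image_eq_zero_of_notMem_tsupport fun h' => hx (hsub h'), mul_zero]
  rw [e1, e2, s]
  simp only [hdN]

/-- Green's formula for the solution -/
lemma weak_lap (i : Fin (m + 3)) {φ : EE m → ℝ} (hφ : IsTest (BB1 m) φ) :
    ∫ x in BB1 m, inner ℝ (gradient (us m i) x) (gradient φ x) = -∫ x in BB1 m, Δ (us m i) x * φ x := by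
  obtain ⟨K, hK0, hK⟩ := bound_dχ
  have hφ' := hφ
  obtain ⟨hs, hc, hsub⟩ := hφ
  have hs1 : ContDiff ℝ 1 φ := hs.of_le (WithTop.coe_le_coe.mpr le_top)
  have hgφ := TR.grad_cont hs1
  obtain ⟨B1, hB1⟩ := hgφ.bounded_above_of_compact_support (TR.grad_supp hc)
  obtain ⟨B2, hB2⟩ := hs.continuous.bounded_above_of_compact_support hc
  have hB10 : 0 ≤ B1 := (norm_nonneg _).trans (hB1 0)
  have hB20 : 0 ≤ B2 := (norm_nonneg _).trans (hB2 0)
  have hm : (0:ℝ) ≤ m := Nat.cast_nonneg m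
  have hgc : ∀ N, Continuous (gradient (uN m N i)) := fun N =>
    TR.grad_cont ((uN_smooth N i).of_le (WithTop.coe_le_coe.mpr le_top))
  have hlc : ∀ N, Continuous (Δ (uN m N i)) := by
    intro N
    have hw2 : ContDiff ℝ 2 (uN m N i) := (uN_smooth N i).of_le (WithTop.coe_le_coe.mpr le_top)
    have : Δ (uN m N i) = fun x => ∑ k, fderiv ℝ (fun y => fderiv ℝ (uN m N i) y (stdOrthonormalBasis ℝ (EE m) k)) x
      (stdOrthonormalBasis ℝ (EE m) k) := funext fun x => TR.laplacian_sum hw2 x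
    rw [this]
    refine continuous_finsetSum _ fun k _ => ?_
    have h1 : ContDiff ℝ 1 (fun y => fderiv ℝ (uN m N i) y (stdOrthonormalBasis ℝ (EE m) k)) :=
      (hw2.fderiv_right (m := 1) (by norm_num)).clm_apply contDiff_const
    exact (h1.continuous_fderiv (by norm_num)).clm_apply continuous_const
  set CA := 3 * (m + 3 : ℝ) ^ 2 + K * (6 * (m + 3 : ℝ) + 8) with hCA
  have hCA0 : 0 ≤ CA := by positivity
  have L1 := dct (m := m) (F := fun N x => inner ℝ (gradient (uN m N i) x) (gradient φ x))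
    (f := fun x => inner ℝ (gradient (us m i) x) (gradient φ x))
    (C := (1 + ((m + 4 : ℝ) + 4 * K)) * B1) (fun N => (hgc N).inner hgφ) (by
      intro N j x hx hx2
      have h1 := grad_uN_le (m := m) hK0 hK N j i hx2
      have h2 := hB1 x
      have h3 := h_le (h := hj m j x) ((m + 4 : ℝ) + 4 * K) (by positivity)
      calc |inner ℝ (gradient (uN m N i) x) (gradient φ x)| ≤ ‖gradient (uN m N i) x‖ * ‖gradient φ x‖ := abs_real_inner_le_norm _ _
        _ ≤ ((1 + ((m + 4 : ℝ) + 4 * K)) * (2 + hj m j x ^ 2)) * B1 :=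
            mul_le_mul (h1.trans h3) h2 (norm_nonneg _) (by positivity)
        _ = _ := by ring) (by
      intro N j x hx hx2 hN
      rw [grad_uN hN i hx2])
  have L2 := dct (m := m) (F := fun N x => Δ (uN m N i) x * φ x) (f := fun x => Δ (us m i) x * φ x)
    (C := CA * B2) (fun N => (hlc N).mul hs.continuous) (by
      intro N j x hx hx2
      rw [abs_mul]
      have h2 := hB2 x
      rw [Real.norm_eq_abs] at h2
      have h1 : |Δ (uN m N i) x| ≤ CA * (2 + hj m j x ^ 2) := by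
        by_cases hN : j < N
        · rw [lap_uN hN i hx2]
          refine (lap_us_le hK0 hK i hx2).trans ?_
          have h5 := g0_le_hj (m := m) j x
          have h6 := g0_nonneg (m := m) (dj_pos j) (sq_nonneg ‖x - cj m j‖)
          have h7 : g0 m (dj j) (‖x - cj m j‖ ^ 2) ^ 2 ≤ hj m j x ^ 2 := pow_le_pow_left₀ h6 h5 2
          refine mul_le_mul_of_nonneg_left ?_ hCA0
          linarith
        · rw [lap_uN' hN i hx2, abs_zero]
          positivity
      calc |Δ (uN m N i) x| * |φ x| ≤ (CA * (2 + hj m j x ^ 2)) * B2 :=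
            mul_le_mul h1 h2 (abs_nonneg _) (by positivity)
        _ = _ := by ring) (by
      intro N j x hx hx2 hN
      rw [lap_uN hN i hx2])
  refine tendsto_nhds_unique L1 (L2.neg.congr fun N => ?_)
  have g := TR.green1 hs1 hc ((uN_smooth (m := m) N i).of_le (m := 2) (WithTop.coe_le_coe.mpr le_top))
  have e1 : ∫ x in BB1 m, inner ℝ (gradient (uN m N i) x) (gradient φ x) = ∫ x, inner ℝ (gradient φ x) (gradient (uN m N i) x) := by
    rw [setIntegral_eq_integral_of_forall_compl_eq_zero]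
    · congr 1; ext x; rw [real_inner_comm]
    · intro x hx
      rw [WS.test_grad_zero hφ' hx, inner_zero_right]
  have e2 : ∫ x in BB1 m, Δ (uN m N i) x * φ x = ∫ x, φ x * Δ (uN m N i) x := by
    rw [setIntegral_eq_integral_of_forall_compl_eq_zero]
    · congr 1; ext x; rw [mul_comm]
    · intro x hx
      rw [WS.test_zero hφ' hx, mul_zero]
  rw [e1, e2, g]

/-- `|∇u|²` -/
noncomputable def SS (m : ℕ) (x : EE m) : ℝ := ∑ i : Fin (m + 3), ‖gradient (us m i) x‖ ^ 2

lemma SS_nonneg (x : EE m) : 0 ≤ SS m x := Finset.sum_nonneg fun _ _ => by positivity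

lemma SS_ge {j : ℕ} {x : EE m} (hx : x ∈ Oj m j) : 1 ≤ SS m x := by
  have := sum_ge (m := m) hx
  unfold SS
  nlinarith [sq_nonneg (g0 m (dj j) (‖x - cj m j‖ ^ 2))]

/-- the coefficient -/
noncomputable def aa (m : ℕ) (x : EE m) : EE m :=
  (BB1 m \ {0}).indicator (fun x => (SS m x)⁻¹ • WithLp.toLp 2 fun i => Δ (us m i) x) x

lemma aa_bdd : ∃ C : ℝ, 0 < C ∧ ∀ x, ‖aa m x‖ ≤ C := by
  obtain ⟨K, hK0, hK⟩ := bound_dχ
  set CA := 3 * (m + 3 : ℝ) ^ 2 + K * (6 * (m + 3 : ℝ) + 8) with hCA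
  have hm : (0:ℝ) ≤ m := Nat.cast_nonneg m
  have hCA0 : 0 < CA := by positivity
  refine ⟨√(m + 3 : ℝ) * CA, by positivity, fun x => ?_⟩
  unfold aa
  by_cases hx : x ∈ BB1 m \ {0}
  · rw [indicator_of_mem hx]
    have h1 : ‖x‖ ≤ 1 := by
      have : ‖x‖ < 1 := by simpa [BB1] using hx.1
      exact this.le
    obtain ⟨j, hj⟩ := exists_Oj (m := m) (x := x) (by simpa using hx.2) h1
    have h2 := SS_ge hj
    rw [norm_smul, norm_inv, Real.norm_eq_abs, abs_of_pos (by linarith)]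
    have h3 : ‖(WithLp.toLp 2 fun i => Δ (us m i) x : EE m)‖ ≤ √(m + 3 : ℝ) * (CA * SS m x) := by
      rw [EuclideanSpace.norm_eq]
      have h4 : ∀ i : Fin (m + 3), ‖(WithLp.toLp 2 fun i => Δ (us m i) x : EE m) i‖ ^ 2 ≤ (CA * SS m x) ^ 2 := by
        intro i
        have h5 := lap_us_le (m := m) hK0 hK i hj
        have h6 := sum_ge (m := m) hj
        rw [Real.norm_eq_abs]
        refine pow_le_pow_left₀ (abs_nonneg _) ?_ 2
        exact h5.trans (mul_le_mul_of_nonneg_left h6 hCA0.le)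
      have h7 : ∑ i : Fin (m + 3), ‖(WithLp.toLp 2 fun i => Δ (us m i) x : EE m) i‖ ^ 2 ≤ (m + 3 : ℝ) * (CA * SS m x) ^ 2 := by
        refine (Finset.sum_le_sum fun i _ => h4 i).trans (le_of_eq ?_)
        simp
      calc √(∑ i : Fin (m + 3), ‖(WithLp.toLp 2 fun i => Δ (us m i) x : EE m) i‖ ^ 2) ≤ √((m + 3 : ℝ) * (CA * SS m x) ^ 2) := Real.sqrt_le_sqrt h7
        _ = √(m + 3 : ℝ) * (CA * SS m x) := by
            rw [Real.sqrt_mul (by positivity), Real.sqrt_sq (by have := SS_nonneg (m := m) x; positivity)]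
    calc (SS m x)⁻¹ * ‖(WithLp.toLp 2 fun i => Δ (us m i) x : EE m)‖ ≤ (SS m x)⁻¹ * (√(m + 3 : ℝ) * (CA * SS m x)) := by gcongr
      _ = _ := by field_simp
  · rw [indicator_of_notMem hx, norm_zero]
    positivity

lemma aa_eq (i : Fin (m + 3)) : ∀ᵐ x ∂(volume.restrict (BB1 m)), SS m x * aa m x i = Δ (us m i) x := by
  have h0 : ∀ᵐ x ∂(volume.restrict (BB1 m)), x ≠ (0 : EE m) :=
    ae_restrict_of_ae (compl_mem_ae_iff.mpr (measure_singleton _))
  filter_upwards [ae_Oj (m := m), h0] with x hx hx0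
  obtain ⟨h1, j, h2⟩ := hx
  have h3 := SS_ge h2
  unfold aa
  rw [indicator_of_mem (show x ∈ BB1 m \ {0} from ⟨h1, by simpa using hx0⟩)]
  rw [PiLp.smul_apply, smul_eq_mul, ← mul_assoc, mul_inv_cancel₀ (by linarith), one_mul]

end Pool.Agent.Q175.BB
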