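import Pool.Agent.Q175.HH.Main

/-! The profile of the bumps. The dimension is `m + 3`. -/

set_option autoImplicit false

open Filter Topology Set
open scoped ContDiff

namespace Pool.Agent.Q175.BB

open HH (χ)

lemma dχ (y : ℝ) : HasDerivAt χ (deriv χ y) y :=
  (HH.χ_smooth.differentiable (by simp) y).hasDerivAt

lemma dχ_smooth : ContDiff ℝ ∞ (deriv χ) := ((contDiff_infty_iff_deriv.mp HH.χ_smooth).2)

lemma ddχ (y : ℝ) : HasDerivAt (deriv χ) (deriv (deriv χ) y) y :=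
  (dχ_smooth.differentiable (by simp) y).hasDerivAt

lemma χ_even_nhds_one {y : ℝ} (h : |y| < 1) : χ =ᶠ[𝓝 y] fun _ => 1 := by
  filter_upwards [(isOpen_lt continuous_abs continuous_const).mem_nhds h] with z hz
  exact HH.χ_one (le_of_lt hz)

lemma χ_nhds_zero {y : ℝ} (h : 2 < |y|) : χ =ᶠ[𝓝 y] fun _ => 0 := by
  filter_upwards [(isOpen_lt continuous_const continuous_abs).mem_nhds h] with z hz
  exact HH.χ_zero (le_of_lt hz)

lemma dχ_zero {y : ℝ} (h : |y| < 1 ∨ 2 < |y|) : deriv χ y = 0 := by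
  rcases h with h | h
  · rw [(χ_even_nhds_one h).deriv_eq, deriv_const]
  · rw [(χ_nhds_zero h).deriv_eq, deriv_const]

lemma ddχ_zero {y : ℝ} (h : |y| < 1 ∨ 2 < |y|) : deriv (deriv χ) y = 0 := by
  have : deriv χ =ᶠ[𝓝 y] fun _ => 0 := by
    rcases h with h | h
    · filter_upwards [(isOpen_lt continuous_abs continuous_const).mem_nhds h] with z hz
      exact dχ_zero (Or.inl hz)
    · filter_upwards [(isOpen_lt continuous_const continuous_abs).mem_nhds h] with z hz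
      exact dχ_zero (Or.inr hz)
  rw [this.deriv_eq, deriv_const]

lemma bound_dχ : ∃ K : ℝ, 0 ≤ K ∧ ∀ y, |deriv χ y| ≤ K ∧ |deriv (deriv χ) y| ≤ K := by
  have hc : IsCompact (Icc (-2:ℝ) 2) := isCompact_Icc
  obtain ⟨K1, h1⟩ := hc.exists_bound_of_continuousOn dχ_smooth.continuous.continuousOn
  have hc2 : Continuous (deriv (deriv χ)) := ((contDiff_infty_iff_deriv.mp dχ_smooth).2).continuous
  obtain ⟨K2, h2⟩ := hc.exists_bound_of_continuousOn hc2.continuousOn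
  refine ⟨max 0 (max K1 K2), le_max_left _ _, fun y => ?_⟩
  by_cases hy : |y| ≤ 2
  · have hy' : y ∈ Icc (-2:ℝ) 2 := abs_le.mp hy
    exact ⟨(h1 y hy').trans ((le_max_left _ _).trans (le_max_right _ _)),
      (h2 y hy').trans ((le_max_right _ _).trans (le_max_right _ _))⟩
  · rw [dχ_zero (Or.inr (not_le.mp hy)), ddχ_zero (Or.inr (not_le.mp hy))]
    simp

variable (m : ℕ)

/-- `a = (1 + σ ^ n) ^ (-1/2)`, `σ = s / d²` -/
noncomputable def al (d s : ℝ) : ℝ := (√(1 + (s / d ^ 2) ^ (m + 3)))⁻¹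

noncomputable def g0 (d s : ℝ) : ℝ := d⁻¹ * al m d s * χ (s / d)
noncomputable def g1 (d s : ℝ) : ℝ :=
  d⁻¹ * (-((m + 3 : ℝ) / 2 * (s / d ^ 2) ^ (m + 2) * (d⁻¹) ^ 2 * al m d s ^ 3)) * χ (s / d) +
    d⁻¹ * al m d s * (deriv χ (s / d) * d⁻¹)
noncomputable def g2 (d s : ℝ) : ℝ :=
  d⁻¹ * (-((m + 3 : ℝ) / 2 * ((m + 2 : ℝ) * (s / d ^ 2) ^ (m + 1) * (d⁻¹) ^ 2) * (d⁻¹) ^ 2 * al m d s ^ 3 +
      (m + 3 : ℝ) / 2 * (s / d ^ 2) ^ (m + 2) * (d⁻¹) ^ 2 * (3 * al m d s ^ 2 *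
        (-((m + 3 : ℝ) / 2 * (s / d ^ 2) ^ (m + 2) * (d⁻¹) ^ 2 * al m d s ^ 3))))) * χ (s / d) +
    2 * (d⁻¹ * (-((m + 3 : ℝ) / 2 * (s / d ^ 2) ^ (m + 2) * (d⁻¹) ^ 2 * al m d s ^ 3)) * (deriv χ (s / d) * d⁻¹)) +
    d⁻¹ * al m d s * (deriv (deriv χ) (s / d) * d⁻¹ * d⁻¹)

variable {m} {d s : ℝ}

lemma hasDerivAt_al (hs : 0 < 1 + (s / d ^ 2) ^ (m + 3)) :
    HasDerivAt (al m d) (-((m + 3 : ℝ) / 2 * (s / d ^ 2) ^ (m + 2) * (d⁻¹) ^ 2 * al m d s ^ 3)) s := by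
  have h1 : HasDerivAt (fun s : ℝ => s / d ^ 2) (1 / d ^ 2) s := (hasDerivAt_id s).div_const _
  have h2 := (h1.pow (m + 3)).const_add 1
  have h3 := h2.sqrt hs.ne'
  have hne : √(1 + (s / d ^ 2) ^ (m + 3)) ≠ 0 := (Real.sqrt_pos.mpr hs).ne'
  have h4 := h3.inv hne
  refine h4.congr_deriv ?_
  unfold al
  have e : m + 3 - 1 = m + 2 := by omega
  simp only [Pi.pow_apply]
  rw [e]
  push_cast
  field_simp

lemma hasDerivAt_g0 (hs : 0 < 1 + (s / d ^ 2) ^ (m + 3)) : HasDerivAt (g0 m d) (g1 m d s) s := by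
  have h1 := (hasDerivAt_al hs).const_mul d⁻¹
  have h2 : HasDerivAt (fun s : ℝ => χ (s / d)) (deriv χ (s / d) * d⁻¹) s := by
    have := (dχ (s / d)).comp s ((hasDerivAt_id s).div_const d)
    simpa [Function.comp_def, one_div] using this
  exact h1.mul h2

lemma hasDerivAt_g1 (hs : 0 < 1 + (s / d ^ 2) ^ (m + 3)) : HasDerivAt (g1 m d) (g2 m d s) s := by
  have ha := hasDerivAt_al hs
  have h0 : HasDerivAt (fun s : ℝ => s / d ^ 2) (1 / d ^ 2) s := (hasDerivAt_id s).div_const _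
  have h2 : HasDerivAt (fun s : ℝ => χ (s / d)) (deriv χ (s / d) * d⁻¹) s := by
    have := (dχ (s / d)).comp s ((hasDerivAt_id s).div_const d)
    simpa [Function.comp_def, one_div] using this
  have h3 : HasDerivAt (fun s : ℝ => deriv χ (s / d) * d⁻¹) (deriv (deriv χ) (s / d) * d⁻¹ * d⁻¹) s := by
    have := ((ddχ (s / d)).comp s ((hasDerivAt_id s).div_const d)).mul_const d⁻¹
    simpa [Function.comp_def, one_div] using this
  have h4 : HasDerivAt (fun s : ℝ => (s / d ^ 2) ^ (m + 2)) ((m + 2 : ℝ) * (s / d ^ 2) ^ (m + 1) * (d⁻¹) ^ 2) s := by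
    refine (h0.pow (m + 2)).congr_deriv ?_
    have e : m + 2 - 1 = m + 1 := by omega
    rw [e]
    push_cast
    rw [inv_pow]
    ring
  have h5 : HasDerivAt (fun s : ℝ => (m + 3 : ℝ) / 2 * (s / d ^ 2) ^ (m + 2) * (d⁻¹) ^ 2)
      ((m + 3 : ℝ) / 2 * ((m + 2 : ℝ) * (s / d ^ 2) ^ (m + 1) * (d⁻¹) ^ 2) * (d⁻¹) ^ 2) s :=
    (h4.const_mul _).mul_const _
  have h6 := (h5.mul (ha.pow 3)).neg
  have h7 := ((h6.const_mul d⁻¹).mul h2).add ((ha.const_mul d⁻¹).mul h3)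
  refine h7.congr_deriv ?_
  unfold g2
  simp only [Pi.mul_apply, Pi.pow_apply, Pi.neg_apply]
  push_cast
  ring

lemma al_pos (hs : 0 ≤ s) : 0 < al m d s := by
  unfold al
  positivity

lemma al_sq (hs : 0 ≤ s) : al m d s ^ 2 * (1 + (s / d ^ 2) ^ (m + 3)) = 1 := by
  have h : 0 < 1 + (s / d ^ 2) ^ (m + 3) := by positivity
  unfold al
  rw [inv_pow, Real.sq_sqrt h.le]
  exact inv_mul_cancel₀ h.ne'

lemma al_le_one (hs : 0 ≤ s) : al m d s ≤ 1 := by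
  have h1 := al_sq (m := m) (d := d) hs
  have h2 : 0 ≤ (s / d ^ 2) ^ (m + 3) := by positivity
  have h3 := al_pos (m := m) (d := d) hs
  by_contra h
  push Not at h
  have : 1 < al m d s ^ 2 := by nlinarith
  nlinarith

/-- the combination in the Laplacian -/
lemma comb (hd : 0 < d) (hs : 0 ≤ s) :
    4 * s * g2 m d s + (2 * (m + 3 : ℝ) + 4) * g1 m d s =
      -(3 * (m + 3 : ℝ) ^ 2 * (d⁻¹) ^ 3 * χ (s / d) * (s / d ^ 2) ^ (m + 2) * al m d s ^ 5) +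
      (d⁻¹) ^ 2 * deriv χ (s / d) * al m d s * ((2 * (m + 3 : ℝ) + 4) - 4 * (m + 3 : ℝ) * (s / d ^ 2) ^ (m + 3) * al m d s ^ 2) +
      4 * d⁻¹ * (s / d ^ 2) * al m d s * deriv (deriv χ) (s / d) := by
  have hA := al_sq (m := m) (d := d) hs
  set a := al m d s with ha
  set σ := s / d ^ 2 with hσ
  have hs' : s = σ * d ^ 2 := by rw [hσ]; field_simp
  unfold g2 g1
  rw [← ha, ← hσ]
  set X := χ (s / d)
  set Y := deriv χ (s / d)
  set Z := deriv (deriv χ) (s / d)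
  rw [hs']
  have hd0 : d ≠ 0 := hd.ne'
  have e1 : σ ^ (m + 2) = σ ^ (m + 1) * σ := pow_succ _ _
  have e2 : σ ^ (m + 3) = σ ^ (m + 1) * σ * σ := by rw [pow_succ, pow_succ]
  rw [e2] at hA
  rw [e2, e1]
  set P := σ ^ (m + 1)
  have hA' : a ^ 2 * (P * σ * σ) = 1 - a ^ 2 := by linarith
  set D := d⁻¹ with hDd
  have hD : d ^ 2 * D ^ 2 = 1 := by rw [hDd]; field_simp
  linear_combination (3 * (m + 3 : ℝ) ^ 2 * D ^ 3 * X * (P * σ) * a ^ 3) * hA' +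
    (4 * σ * (D ^ 3 * (-((m + 3 : ℝ) / 2 * ((m + 2 : ℝ) * P) * a ^ 3 + (m + 3 : ℝ) / 2 * (P * σ) * (3 * a ^ 2 *
      (-((m + 3 : ℝ) / 2 * (P * σ) * a ^ 3))))) * X + 2 * (D ^ 2 * (-((m + 3 : ℝ) / 2 * (P * σ) * a ^ 3)) * Y) +
      D * a * Z)) * hD

set_option maxHeartbeats 4000000 in
/-- the bound for the Laplacian -/
lemma boundA {K : ℝ} (hK0 : 0 ≤ K) (hK : ∀ y, |deriv χ y| ≤ K ∧ |deriv (deriv χ) y| ≤ K) (hd : 0 < d) (hd1 : d ≤ 1)
    {r : ℝ} (hr : 0 ≤ r) (hs : s = r ^ 2) :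
    |4 * s * g2 m d s + (2 * (m + 3 : ℝ) + 4) * g1 m d s| * r ≤
      (3 * (m + 3 : ℝ) ^ 2 + K * (6 * (m + 3 : ℝ) + 8)) * (1 + g0 m d s ^ 2) := by
  have hs0 : 0 ≤ s := by rw [hs]; positivity
  rw [comb hd hs0]
  have ha := al_pos (m := m) (d := d) hs0
  have ha1 := al_le_one (m := m) (d := d) hs0
  have hA := al_sq (m := m) (d := d) hs0
  set a := al m d s with hadef
  set τ := r / d with hτ
  have hτ0 : 0 ≤ τ := by positivity
  have hσ : s / d ^ 2 = τ ^ 2 := by rw [hs, hτ, div_pow]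
  have hrd : r = d * τ := by rw [hτ]; field_simp
  rw [hσ] at hA ⊢
  -- `a τ ^ n ≤ 1`
  have haτ : a * τ ^ (m + 3) ≤ 1 := by
    have h1 : (a * τ ^ (m + 3)) ^ 2 ≤ 1 := by
      have : (a * τ ^ (m + 3)) ^ 2 = a ^ 2 * (τ ^ 2) ^ (m + 3) := by ring
      rw [this]
      nlinarith [sq_nonneg a]
    have h2 : 0 ≤ a * τ ^ (m + 3) := by positivity
    nlinarith
  have hτa2 : a ^ 2 * (τ ^ 2) ^ (m + 3) ≤ 1 := by nlinarith [sq_nonneg a]
  set D := d⁻¹ with hD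
  have hD1 : 1 ≤ D := (one_le_inv₀ hd).mpr hd1
  have hdD : d * D = 1 := mul_inv_cancel₀ hd.ne'
  have hX0 := HH.χ_nonneg (s / d)
  have hX1 := HH.χ_le_one (s / d)
  have hg : g0 m d s = D * a * χ (s / d) := rfl
  rw [hg]
  obtain ⟨hY, hZ⟩ := hK (s / d)
  set X := χ (s / d) with hXdef
  have hsd : s / d = D * (r ^ 2) := by rw [hs, hD]; field_simp
  have hsd2 : s / d = d * τ ^ 2 := by rw [hs, hrd]; field_simp
  -- the first term
  have T1 : |3 * (m + 3 : ℝ) ^ 2 * D ^ 3 * X * (τ ^ 2) ^ (m + 2) * a ^ 5| * r ≤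
      3 * (m + 3 : ℝ) ^ 2 * (1 + (D * a * X) ^ 2) := by
    have e : |3 * (m + 3 : ℝ) ^ 2 * D ^ 3 * X * (τ ^ 2) ^ (m + 2) * a ^ 5| * r =
        3 * (m + 3 : ℝ) ^ 2 * (X * (D ^ 2 * (τ ^ (2 * m + 5) * a ^ 5))) := by
      rw [abs_of_nonneg (by positivity), hrd]
      have : D ^ 3 * d = D ^ 2 := by linear_combination D ^ 2 * hdD
      have e2 : (τ ^ 2) ^ (m + 2) * τ = τ ^ (2 * m + 5) := by ring
      calc 3 * (m + 3 : ℝ) ^ 2 * D ^ 3 * X * (τ ^ 2) ^ (m + 2) * a ^ 5 * (d * τ)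
          = 3 * (m + 3 : ℝ) ^ 2 * (X * ((D ^ 3 * d) * (((τ ^ 2) ^ (m + 2) * τ) * a ^ 5))) := by ring
        _ = _ := by rw [this, e2]
    rw [e]
    refine mul_le_mul_of_nonneg_left ?_ (by positivity)
    by_cases hc : s / d ≤ 1
    · have hX : X = 1 := HH.χ_one (by rw [abs_of_nonneg (by positivity)]; exact hc)
      rw [hX]
      have h1 : τ ^ (2 * m + 5) * a ^ 5 ≤ a ^ 2 := by
        have h2 : τ ^ (2 * m + 5) * a ^ 3 ≤ 1 := by
          by_cases hτ1 : τ ≤ 1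
          · exact mul_le_one₀ (pow_le_one₀ hτ0 hτ1) (by positivity) (pow_le_one₀ ha.le ha1)
          · push Not at hτ1
            calc τ ^ (2 * m + 5) * a ^ 3 ≤ τ ^ (2 * m + 6) * a ^ 2 := by
                  have h3 : τ ^ (2 * m + 5) ≤ τ ^ (2 * m + 6) := pow_le_pow_right₀ hτ1.le (by omega)
                  have h4 : a ^ 3 ≤ a ^ 2 := pow_le_pow_of_le_one ha.le ha1 (by norm_num)
                  exact mul_le_mul h3 h4 (by positivity) (by positivity)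
              _ = a ^ 2 * (τ ^ 2) ^ (m + 3) := by ring
              _ ≤ 1 := hτa2
        calc τ ^ (2 * m + 5) * a ^ 5 = (τ ^ (2 * m + 5) * a ^ 3) * a ^ 2 := by ring
          _ ≤ 1 * a ^ 2 := by gcongr
          _ = a ^ 2 := one_mul _
      calc 1 * (D ^ 2 * (τ ^ (2 * m + 5) * a ^ 5)) ≤ 1 * (D ^ 2 * a ^ 2) := by gcongr
        _ ≤ 1 + (D * a * 1) ^ 2 := by nlinarith
    · push Not at hc
      have hDτ : D ≤ τ ^ 2 := by
        rw [hsd2] at hc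
        have : D * 1 ≤ D * (d * τ ^ 2) := by gcongr
        calc D = D * 1 := (mul_one _).symm
          _ ≤ D * (d * τ ^ 2) := this
          _ = τ ^ 2 := by rw [← mul_assoc, mul_comm D d, hdD, one_mul]
      have hτ1 : 1 ≤ τ := by
        by_contra h
        push Not at h
        nlinarith
      have h1 : D ^ 2 * (τ ^ (2 * m + 5) * a ^ 5) ≤ 1 := by
        calc D ^ 2 * (τ ^ (2 * m + 5) * a ^ 5) ≤ (τ ^ 2) ^ 2 * (τ ^ (2 * m + 5) * a ^ 5) := by gcongr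
          _ ≤ τ ^ (5 * (m + 3)) * a ^ 5 := by
              have : (τ ^ 2) ^ 2 * (τ ^ (2 * m + 5) * a ^ 5) = τ ^ (2 * m + 9) * a ^ 5 := by ring
              rw [this]
              have h3 : τ ^ (2 * m + 9) ≤ τ ^ (5 * (m + 3)) := pow_le_pow_right₀ hτ1 (by omega)
              gcongr
          _ = (a * τ ^ (m + 3)) ^ 5 := by ring
          _ ≤ 1 := pow_le_one₀ (by positivity) haτ
      calc X * (D ^ 2 * (τ ^ (2 * m + 5) * a ^ 5)) ≤ 1 * 1 := by gcongr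
        _ ≤ 1 + (D * a * X) ^ 2 := by nlinarith [sq_nonneg (D * a * X)]
  -- the other terms vanish unless `1 ≤ s / d ≤ 2`
  have key : (1 ≤ s / d → D ≤ τ ^ 2 ∧ 1 ≤ τ) := by
    intro hc
    have hDτ : D ≤ τ ^ 2 := by
      rw [hsd2] at hc
      have : D * 1 ≤ D * (d * τ ^ 2) := by gcongr
      calc D = D * 1 := (mul_one _).symm
        _ ≤ D * (d * τ ^ 2) := this
        _ = τ ^ 2 := by rw [← mul_assoc, mul_comm D d, hdD, one_mul]
    refine ⟨hDτ, ?_⟩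
    by_contra h
    push Not at h
    nlinarith
  have hn0 : (0:ℝ) ≤ m := Nat.cast_nonneg m
  have T2 : |D ^ 2 * deriv χ (s / d) * a * ((2 * (m + 3 : ℝ) + 4) - 4 * (m + 3 : ℝ) * (τ ^ 2) ^ (m + 3) * a ^ 2)| * r ≤
      K * (6 * (m + 3 : ℝ) + 4) := by
    by_cases hc : 1 ≤ s / d
    · obtain ⟨hDτ, hτ1⟩ := key hc
      have h1 : |(2 * (m + 3 : ℝ) + 4) - 4 * (m + 3 : ℝ) * (τ ^ 2) ^ (m + 3) * a ^ 2| ≤ 6 * (m + 3 : ℝ) + 4 := by
        have h2 : 0 ≤ (τ ^ 2) ^ (m + 3) * a ^ 2 := by positivity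
        have h3 : (τ ^ 2) ^ (m + 3) * a ^ 2 ≤ 1 := by linarith
        rw [abs_le]
        constructor <;> nlinarith
      have h4 : D ^ 2 * a * r ≤ 1 := by
        calc D ^ 2 * a * r = D * τ * a * (d * D) := by rw [hrd]; ring
          _ = D * τ * a := by rw [hdD, mul_one]
          _ ≤ τ ^ 2 * τ * a := by gcongr
          _ = a * τ ^ 3 := by ring
          _ ≤ a * τ ^ (m + 3) := by
              have : τ ^ 3 ≤ τ ^ (m + 3) := pow_le_pow_right₀ hτ1 (by omega)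
              gcongr
          _ ≤ 1 := haτ
      rw [abs_mul, abs_mul, abs_mul, abs_of_nonneg (by positivity : 0 ≤ D ^ 2), abs_of_pos ha]
      calc D ^ 2 * |deriv χ (s / d)| * a * |(2 * (m + 3 : ℝ) + 4) - 4 * (m + 3 : ℝ) * (τ ^ 2) ^ (m + 3) * a ^ 2| * r
          = (D ^ 2 * a * r) * (|deriv χ (s / d)| * |(2 * (m + 3 : ℝ) + 4) - 4 * (m + 3 : ℝ) * (τ ^ 2) ^ (m + 3) * a ^ 2|) := by ring
        _ ≤ 1 * (K * (6 * (m + 3 : ℝ) + 4)) := by
            refine mul_le_mul h4 (mul_le_mul hY h1 (abs_nonneg _) hK0) (by positivity) (by norm_num)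
        _ = _ := one_mul _
    · push Not at hc
      rw [dχ_zero (Or.inl (by rwa [abs_of_nonneg (by positivity)]))]
      simp
      positivity
  have T3 : |4 * D * τ ^ 2 * a * deriv (deriv χ) (s / d)| * r ≤ 4 * K := by
    by_cases hc : 1 ≤ s / d
    · obtain ⟨hDτ, hτ1⟩ := key hc
      have h4 : D * τ ^ 2 * a * r ≤ 1 := by
        calc D * τ ^ 2 * a * r = (a * τ ^ 3) * (d * D) := by rw [hrd]; ring
          _ = a * τ ^ 3 := by rw [hdD, mul_one]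
          _ ≤ a * τ ^ (m + 3) := by
              have : τ ^ 3 ≤ τ ^ (m + 3) := pow_le_pow_right₀ hτ1 (by omega)
              gcongr
          _ ≤ 1 := haτ
      rw [abs_mul, abs_of_nonneg (by positivity : 0 ≤ 4 * D * τ ^ 2 * a)]
      calc 4 * D * τ ^ 2 * a * |deriv (deriv χ) (s / d)| * r = 4 * ((D * τ ^ 2 * a * r) * |deriv (deriv χ) (s / d)|) := by ring
        _ ≤ 4 * (1 * K) := by gcongr
        _ = _ := by ring
    · push Not at hc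
      rw [ddχ_zero (Or.inl (by rwa [abs_of_nonneg (by positivity)]))]
      simp
      positivity
  set A1 := 3 * (m + 3 : ℝ) ^ 2 * D ^ 3 * X * (τ ^ 2) ^ (m + 2) * a ^ 5
  set A2 := D ^ 2 * deriv χ (s / d) * a * ((2 * (m + 3 : ℝ) + 4) - 4 * (m + 3 : ℝ) * (τ ^ 2) ^ (m + 3) * a ^ 2)
  set A3 := 4 * D * τ ^ 2 * a * deriv (deriv χ) (s / d)
  have h0 : |-A1 + A2 + A3| * r ≤ |A1| * r + |A2| * r + |A3| * r := by
    rw [← add_mul, ← add_mul]
    gcongr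
    refine (abs_add_three _ _ _).trans ?_
    rw [abs_neg]
  have h5 : 0 ≤ K * (6 * (m + 3 : ℝ) + 8) * (D * a * X) ^ 2 := by positivity
  calc |-A1 + A2 + A3| * r ≤ |A1| * r + |A2| * r + |A3| * r := h0
    _ ≤ 3 * (m + 3 : ℝ) ^ 2 * (1 + (D * a * X) ^ 2) + K * (6 * (m + 3 : ℝ) + 4) + 4 * K := by linarith
    _ ≤ (3 * (m + 3 : ℝ) ^ 2 + K * (6 * (m + 3 : ℝ) + 8)) * (1 + (D * a * X) ^ 2) := by linarith

/-- the bound for the gradient -/
lemma boundB {K : ℝ} (hK0 : 0 ≤ K) (hK : ∀ y, |deriv χ y| ≤ K ∧ |deriv (deriv χ) y| ≤ K) (hd : 0 < d)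
    (hs0 : 0 ≤ s) :
    |g0 m d s| + 2 * s * |g1 m d s| ≤ ((m + 4 : ℝ) + 4 * K) * (d⁻¹ * al m d s) := by
  have ha := al_pos (m := m) (d := d) hs0
  have hA := al_sq (m := m) (d := d) hs0
  set a := al m d s with hadef
  set σ := s / d ^ 2 with hσ
  have hσ0 : 0 ≤ σ := by positivity
  have hs' : s = σ * d ^ 2 := by rw [hσ]; field_simp
  have hX0 := HH.χ_nonneg (s / d)
  have hX1 := HH.χ_le_one (s / d)
  obtain ⟨hY, -⟩ := hK (s / d)
  have h1 : |g0 m d s| ≤ d⁻¹ * a := by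
    unfold g0
    rw [abs_of_nonneg (by positivity)]
    calc d⁻¹ * a * χ (s / d) ≤ d⁻¹ * a * 1 := by gcongr
      _ = _ := mul_one _
  have haσ : a ^ 2 * σ ^ (m + 3) ≤ 1 := by nlinarith [sq_nonneg a]
  have h2 : 2 * s * |d⁻¹ * (-((m + 3 : ℝ) / 2 * σ ^ (m + 2) * (d⁻¹) ^ 2 * a ^ 3)) * χ (s / d)| ≤ (m + 3 : ℝ) * (d⁻¹ * a) := by
    have e : 2 * s * |d⁻¹ * (-((m + 3 : ℝ) / 2 * σ ^ (m + 2) * (d⁻¹) ^ 2 * a ^ 3)) * χ (s / d)| =
        (m + 3 : ℝ) * (d⁻¹ * a) * ((a ^ 2 * σ ^ (m + 3)) * χ (s / d)) := by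
      rw [mul_neg, neg_mul, abs_neg, abs_of_nonneg (by positivity)]
      rw [pow_succ σ (m + 2)]
      generalize σ ^ (m + 2) = P
      rw [hs']
      field_simp
    rw [e]
    have : a ^ 2 * σ ^ (m + 3) * χ (s / d) ≤ 1 := mul_le_one₀ haσ hX0 hX1
    calc (m + 3 : ℝ) * (d⁻¹ * a) * ((a ^ 2 * σ ^ (m + 3)) * χ (s / d)) ≤ (m + 3 : ℝ) * (d⁻¹ * a) * 1 := by gcongr
      _ = _ := mul_one _
  have h3 : 2 * s * |d⁻¹ * a * (deriv χ (s / d) * d⁻¹)| ≤ 4 * K * (d⁻¹ * a) := by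
    by_cases hc : s / d ≤ 2
    · have e : 2 * s * |d⁻¹ * a * (deriv χ (s / d) * d⁻¹)| = 2 * (s / d) * |deriv χ (s / d)| * (d⁻¹ * a) := by
        rw [abs_mul (d⁻¹ * a), abs_mul (deriv χ (s / d)), abs_of_nonneg (by positivity : 0 ≤ d⁻¹ * a),
          abs_of_pos (inv_pos.mpr hd)]
        field_simp
      rw [e]
      have h4 : 0 ≤ s / d := by positivity
      calc 2 * (s / d) * |deriv χ (s / d)| * (d⁻¹ * a) ≤ 2 * 2 * K * (d⁻¹ * a) := by gcongr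
        _ = _ := by ring
    · push Not at hc
      rw [dχ_zero (Or.inr (by rwa [abs_of_nonneg (by positivity)]))]
      simp
      positivity
  have h4 : 2 * s * |g1 m d s| ≤ 2 * s * |d⁻¹ * (-((m + 3 : ℝ) / 2 * σ ^ (m + 2) * (d⁻¹) ^ 2 * a ^ 3)) * χ (s / d)| +
      2 * s * |d⁻¹ * a * (deriv χ (s / d) * d⁻¹)| := by
    rw [← mul_add]
    refine mul_le_mul_of_nonneg_left (abs_add_le _ _) (by positivity)
  calc |g0 m d s| + 2 * s * |g1 m d s| ≤ d⁻¹ * a + ((m + 3 : ℝ) * (d⁻¹ * a) + 4 * K * (d⁻¹ * a)) := by linarith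
    _ = _ := by ring

end Pool.Agent.Q175.BB
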