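import Pool.Agent.Q175.BB.Int

/-! The sum of the bumps. -/

set_option autoImplicit false

open MeasureTheory Laplacian InnerProductSpace Filter Topology Set
open scoped ContDiff ENNReal

namespace Pool.Agent.Q175.BB

variable {m : ℕ}

/-- `2^{-j}` -/
noncomputable def rj (j : ℕ) : ℝ := (1 / 2) ^ j
/-- the scales -/
noncomputable def dj (j : ℕ) : ℝ := rj j ^ 2 / 256
/-- the centres -/
noncomputable def cj (m : ℕ) (j : ℕ) : EE m := (3 / 4 * rj j) • EuclideanSpace.single 0 1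

lemma rj_pos (j : ℕ) : 0 < rj j := by unfold rj; positivity
lemma rj_le (j : ℕ) : rj j ≤ 1 := pow_le_one₀ (by norm_num) (by norm_num)
lemma dj_pos (j : ℕ) : 0 < dj j := by have := rj_pos j; unfold dj; positivity
lemma dj_le (j : ℕ) : dj j ≤ 1 := by
  have := rj_pos j; have := rj_le j; unfold dj; nlinarith

lemma rj_anti {i j : ℕ} (h : i ≤ j) : rj j ≤ rj i := pow_le_pow_of_le_one (by norm_num) (by norm_num) h

lemma rj_succ {i j : ℕ} (h : i < j) : rj j ≤ rj i / 2 := by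
  have h1 := rj_anti (show i + 1 ≤ j from h)
  have h2 : rj (i + 1) = rj i / 2 := by unfold rj; rw [pow_succ]; ring
  linarith

lemma cj_norm (j : ℕ) : ‖cj m j‖ = 3 / 4 * rj j := by
  have := rj_pos j
  unfold cj
  rw [norm_smul, Real.norm_eq_abs, abs_of_pos (by positivity)]
  simp

/-- overlapping open shells -/
def Oj (m : ℕ) (j : ℕ) : Set (EE m) := {x | 7 / 16 * rj j < ‖x‖ ∧ ‖x‖ < 5 / 4 * rj j}

lemma Oj_open (j : ℕ) : IsOpen (Oj m j) :=
  (isOpen_lt continuous_const continuous_norm).inter (isOpen_lt continuous_norm continuous_const)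

lemma exists_Oj {x : EE m} (hx : x ≠ 0) (hx1 : ‖x‖ ≤ 1) : ∃ j, x ∈ Oj m j := by
  obtain ⟨j, h1, h2⟩ := exists_nat_pow_near_of_lt_one (norm_pos_iff.mpr hx) hx1 (show (0:ℝ) < 1 / 2 by norm_num) (by norm_num)
  have h3 := rj_pos j
  refine ⟨j, ?_, ?_⟩
  · have : (1 / 2 : ℝ) ^ (j + 1) = rj j / 2 := by unfold rj; rw [pow_succ]; ring
    rw [this] at h1
    linarith
  · change ‖x‖ < 5 / 4 * rj j
    change ‖x‖ ≤ rj j at h2
    linarith

/-- on `O_j` only the `j`-th bump is not zero -/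
lemma far {i j : ℕ} (hij : i ≠ j) {x : EE m} (hx : x ∈ Oj m j) : 2 * dj i < ‖x - cj m i‖ ^ 2 := by
  obtain ⟨h1, h2⟩ := hx
  have hi := rj_pos i
  have hc := cj_norm (m := m) i
  have h3 : 1 / 8 * rj i ≤ ‖x - cj m i‖ := by
    rcases lt_or_gt_of_ne hij with h | h
    · have h4 := rj_succ h
      have h5 : ‖cj m i‖ - ‖x‖ ≤ ‖x - cj m i‖ := by rw [norm_sub_rev]; exact norm_sub_norm_le _ _
      linarith
    · have h4 := rj_succ h
      have h5 : ‖x‖ - ‖cj m i‖ ≤ ‖x - cj m i‖ := norm_sub_norm_le _ _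
      linarith
  unfold dj
  nlinarith

lemma near {j : ℕ} {x : EE m} (hx : ‖x - cj m j‖ ^ 2 ≤ 2 * dj j) : rj j / 2 ≤ ‖x‖ := by
  have hi := rj_pos j
  have hc := cj_norm (m := m) j
  by_contra h
  push Not at h
  have h5 : ‖cj m j‖ - ‖x‖ ≤ ‖x - cj m j‖ := by rw [norm_sub_rev]; exact norm_sub_norm_le _ _
  have h3 : 1 / 4 * rj j ≤ ‖x - cj m j‖ := by linarith
  unfold dj at hx
  nlinarith

/-- the `j`-th bump -/
noncomputable def bj (m : ℕ) (j : ℕ) (i : Fin (m + 3)) : EE m → ℝ := bu m (dj j) (cj m j) i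

lemma bj_far {i j : ℕ} (hij : i ≠ j) (k : Fin (m + 3)) {x : EE m} (hx : x ∈ Oj m j) : bj m i k x = 0 :=
  bu_zero (dj_pos i) (far hij hx).le

/-- the solution -/
noncomputable def us (m : ℕ) (i : Fin (m + 3)) (x : EE m) : ℝ := x i + ∑' j, bj m j i x
/-- the partial sums -/
noncomputable def uN (m : ℕ) (N : ℕ) (i : Fin (m + 3)) (x : EE m) : ℝ := x i + ∑ j ∈ Finset.range N, bj m j i x

lemma us_eq {j : ℕ} (i : Fin (m + 3)) {x : EE m} (hx : x ∈ Oj m j) : us m i x = x i + bj m j i x := by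
  unfold us
  rw [tsum_eq_single j fun k hk => bj_far hk i hx]

lemma uN_eq {j N : ℕ} (i : Fin (m + 3)) {x : EE m} (hx : x ∈ Oj m j) :
    uN m N i x = x i + if j < N then bj m j i x else 0 := by
  unfold uN
  congr 1
  split_ifs with h
  · exact Finset.sum_eq_single j (fun k _ hk => bj_far hk i hx) fun h' => absurd (Finset.mem_range.mpr h) h'
  · exact Finset.sum_eq_zero fun k hk => bj_far (by rintro rfl; exact h (Finset.mem_range.mp hk)) i hx

lemma coord_smooth (i : Fin (m + 3)) : ContDiff ℝ ∞ (fun x : EE m => x i) := (prj m i).contDiff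

lemma uN_smooth (N : ℕ) (i : Fin (m + 3)) : ContDiff ℝ ∞ (uN m N i) :=
  (coord_smooth i).add (ContDiff.sum fun _ _ => bu_smooth)

lemma us_nhds {j : ℕ} (i : Fin (m + 3)) {x : EE m} (hx : x ∈ Oj m j) :
    us m i =ᶠ[𝓝 x] fun y => y i + bj m j i y := by
  filter_upwards [(Oj_open j).mem_nhds hx] with y hy
  exact us_eq i hy

lemma uN_nhds {j N : ℕ} (hN : j < N) (i : Fin (m + 3)) {x : EE m} (hx : x ∈ Oj m j) :
    uN m N i =ᶠ[𝓝 x] fun y => y i + bj m j i y := by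
  filter_upwards [(Oj_open j).mem_nhds hx] with y hy
  rw [uN_eq i hy, if_pos hN]

lemma uN_nhds' {j N : ℕ} (hN : ¬ j < N) (i : Fin (m + 3)) {x : EE m} (hx : x ∈ Oj m j) :
    uN m N i =ᶠ[𝓝 x] fun y => y i := by
  filter_upwards [(Oj_open j).mem_nhds hx] with y hy
  rw [uN_eq i hy, if_neg hN, add_zero]

lemma hasFDerivAt_coord0 (i : Fin (m + 3)) (x : EE m) : HasFDerivAt (fun y : EE m => y i) (prj m i) x :=
  (prj m i).hasFDerivAt

lemma toDual_single (i : Fin (m + 3)) : toDual ℝ (EE m) (EuclideanSpace.single i (1:ℝ)) = prj m i := by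
  ext y
  simp [prj_apply, EuclideanSpace.inner_single_left]

lemma hasGradientAt_sum (j : ℕ) (i : Fin (m + 3)) (x : EE m) :
    HasGradientAt (fun y => y i + bj m j i y) (EuclideanSpace.single i (1:ℝ) + gradient (bj m j i) x) x := by
  have h1 := ((bu_smooth (m := m) (d := dj j) (c := cj m j) (i := i)).differentiable (by simp) x).hasGradientAt
  rw [hasGradientAt_iff_hasFDerivAt] at h1 ⊢
  rw [map_add, toDual_single]
  exact (hasFDerivAt_coord0 i x).add h1

lemma grad_us {j : ℕ} (i : Fin (m + 3)) {x : EE m} (hx : x ∈ Oj m j) :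
    gradient (us m i) x = EuclideanSpace.single i (1:ℝ) + gradient (bj m j i) x := by
  have h := hasGradientAt_sum j i x
  have h2 : HasGradientAt (us m i) (EuclideanSpace.single i (1:ℝ) + gradient (bj m j i) x) x := by
    rw [hasGradientAt_iff_hasFDerivAt] at h ⊢
    exact h.congr_of_eventuallyEq (us_nhds i hx)
  exact h2.gradient

lemma grad_uN {j N : ℕ} (hN : j < N) (i : Fin (m + 3)) {x : EE m} (hx : x ∈ Oj m j) :
    gradient (uN m N i) x = gradient (us m i) x := by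
  unfold gradient
  rw [((uN_nhds hN i hx).trans (us_nhds i hx).symm).fderiv_eq]

lemma grad_uN' {j N : ℕ} (hN : ¬ j < N) (i : Fin (m + 3)) {x : EE m} (hx : x ∈ Oj m j) :
    gradient (uN m N i) x = EuclideanSpace.single i (1:ℝ) := by
  have h2 : HasGradientAt (uN m N i) (EuclideanSpace.single i (1:ℝ)) x := by
    rw [hasGradientAt_iff_hasFDerivAt, toDual_single]
    exact (hasFDerivAt_coord0 i x).congr_of_eventuallyEq (uN_nhds' hN i hx)
  exact h2.gradient

lemma lap_uN {j N : ℕ} (hN : j < N) (i : Fin (m + 3)) {x : EE m} (hx : x ∈ Oj m j) :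
    Δ (uN m N i) x = Δ (us m i) x :=
  (laplacian_congr_nhds ((uN_nhds hN i hx).trans (us_nhds i hx).symm)).self_of_nhds

lemma lap_coord (i : Fin (m + 3)) (x : EE m) : Δ (fun y : EE m => y i) x = 0 := by
  rw [H314.CS.LL.laplacian_eq_of_hasFDerivAt (f' := fun _ => prj m i) (f'' := 0) (stdOrthonormalBasis ℝ (EE m))
    (Eventually.of_forall fun y => hasFDerivAt_coord0 i y) (hasFDerivAt_const _ _)]
  simp

lemma lap_uN' {j N : ℕ} (hN : ¬ j < N) (i : Fin (m + 3)) {x : EE m} (hx : x ∈ Oj m j) :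
    Δ (uN m N i) x = 0 := by
  rw [(laplacian_congr_nhds (uN_nhds' hN i hx)).self_of_nhds, lap_coord]

lemma lap_us {j : ℕ} (i : Fin (m + 3)) {x : EE m} (hx : x ∈ Oj m j) :
    Δ (us m i) x = Δ (bj m j i) x := by
  rw [(laplacian_congr_nhds (us_nhds i hx)).self_of_nhds]
  have := (ContDiffAt.laplacian_add (((coord_smooth i).contDiffAt (x := x)).of_le (m := 2) (WithTop.coe_le_coe.mpr le_top))
    (((bu_smooth (m := m) (d := dj j) (c := cj m j) (i := i)).contDiffAt (x := x)).of_le (m := 2) (WithTop.coe_le_coe.mpr le_top)))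
  have e : Δ (fun y => y i + bj m j i y) x = Δ (fun y : EE m => y i) x + Δ (bj m j i) x := this
  rw [e, lap_coord, zero_add]

/-- the size of the gradient of the `j`-th bump -/
noncomputable def hj (m : ℕ) (j : ℕ) (x : EE m) : ℝ :=
  {x : EE m | ‖x - cj m j‖ ^ 2 ≤ 2 * dj j}.indicator (fun x => (dj j)⁻¹ * al m (dj j) (‖x - cj m j‖ ^ 2)) x

lemma hj_nonneg (j : ℕ) (x : EE m) : 0 ≤ hj m j x := by
  unfold hj
  apply indicator_nonneg
  intro y _
  have := al_pos (m := m) (d := dj j) (sq_nonneg ‖y - cj m j‖)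
  have := dj_pos j
  positivity

lemma hj_far {i j : ℕ} (hij : i ≠ j) {x : EE m} (hx : x ∈ Oj m j) : hj m i x = 0 := by
  unfold hj
  apply indicator_of_notMem
  intro h
  exact absurd (far hij hx) (not_lt.mpr h)

lemma hj_in {j : ℕ} {x : EE m} (hx : ‖x - cj m j‖ ^ 2 ≤ 2 * dj j) :
    hj m j x = (dj j)⁻¹ * al m (dj j) (‖x - cj m j‖ ^ 2) :=
  indicator_of_mem (s := {x : EE m | ‖x - cj m j‖ ^ 2 ≤ 2 * dj j}) hx _

lemma hj_out {j : ℕ} {x : EE m} (hx : ¬ ‖x - cj m j‖ ^ 2 ≤ 2 * dj j) : hj m j x = 0 :=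
  indicator_of_notMem (s := {x : EE m | ‖x - cj m j‖ ^ 2 ≤ 2 * dj j}) hx _

lemma bj_nhds {j : ℕ} {i : Fin (m + 3)} {x : EE m} (hx : ¬ ‖x - cj m j‖ ^ 2 ≤ 2 * dj j) :
    bj m j i =ᶠ[𝓝 x] fun _ => 0 := by
  push Not at hx
  have hop : IsOpen {y : EE m | 2 * dj j < ‖y - cj m j‖ ^ 2} :=
    isOpen_lt continuous_const ((continuous_id.sub continuous_const).norm.pow 2)
  filter_upwards [hop.mem_nhds hx] with y hy
  exact bu_zero (dj_pos j) (le_of_lt hy)

/-- the gradient of a bump -/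
lemma grad_bj_le {K : ℝ} (hK0 : 0 ≤ K) (hK : ∀ y, |deriv HH.χ y| ≤ K ∧ |deriv (deriv HH.χ) y| ≤ K)
    (j : ℕ) (i : Fin (m + 3)) (x : EE m) : ‖gradient (bj m j i) x‖ ≤ ((m + 4 : ℝ) + 4 * K) * hj m j x := by
  by_cases hx : ‖x - cj m j‖ ^ 2 ≤ 2 * dj j
  · have e : hj m j x = (dj j)⁻¹ * al m (dj j) (‖x - cj m j‖ ^ 2) := hj_in hx
    rw [e]
    exact (grad_bu_norm x).trans (boundB hK0 hK (dj_pos j) (sq_nonneg _))
  · have e : gradient (bj m j i) x = 0 := by
      unfold gradient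
      rw [(bj_nhds hx).fderiv_eq]
      simp
    rw [e, norm_zero]
    have := hj_nonneg (m := m) j x
    positivity

/-- the gradient of the solution is not small -/
lemma sum_ge {j : ℕ} {x : EE m} (hx : x ∈ Oj m j) :
    1 + g0 m (dj j) (‖x - cj m j‖ ^ 2) ^ 2 ≤ ∑ i : Fin (m + 3), ‖gradient (us m i) x‖ ^ 2 := by
  have := grad_sum (m := m) (c := cj m j) (dj_pos j) x
  refine this.trans (le_of_eq ?_)
  refine Finset.sum_congr rfl fun i _ => ?_
  rw [grad_us i hx]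
  rfl

lemma g0_le_hj (j : ℕ) (x : EE m) : g0 m (dj j) (‖x - cj m j‖ ^ 2) ≤ hj m j x := by
  have hd := dj_pos j
  by_cases hx : ‖x - cj m j‖ ^ 2 ≤ 2 * dj j
  · have e : hj m j x = (dj j)⁻¹ * al m (dj j) (‖x - cj m j‖ ^ 2) := hj_in hx
    rw [e]
    have h1 := al_pos (m := m) (d := dj j) (sq_nonneg ‖x - cj m j‖)
    have h2 := HH.χ_le_one (‖x - cj m j‖ ^ 2 / dj j)
    unfold g0
    calc (dj j)⁻¹ * al m (dj j) (‖x - cj m j‖ ^ 2) * HH.χ (‖x - cj m j‖ ^ 2 / dj j)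
        ≤ (dj j)⁻¹ * al m (dj j) (‖x - cj m j‖ ^ 2) * 1 := by gcongr
      _ = _ := mul_one _
  · have e : hj m j x = 0 := hj_out hx
    rw [e]
    push Not at hx
    unfold g0
    rw [HH.χ_zero, mul_zero]
    rw [abs_of_nonneg (by positivity), le_div_iff₀ hd]
    exact hx.le

/-- the Laplacian of the solution -/
lemma lap_us_le {K : ℝ} (hK0 : 0 ≤ K) (hK : ∀ y, |deriv HH.χ y| ≤ K ∧ |deriv (deriv HH.χ) y| ≤ K)
    {j : ℕ} (i : Fin (m + 3)) {x : EE m} (hx : x ∈ Oj m j) :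
    |Δ (us m i) x| ≤ (3 * (m + 3 : ℝ) ^ 2 + K * (6 * (m + 3 : ℝ) + 8)) * (1 + g0 m (dj j) (‖x - cj m j‖ ^ 2) ^ 2) := by
  rw [lap_us i hx]
  have h1 := boundA (m := m) hK0 hK (dj_pos j) (dj_le j) (norm_nonneg (x - cj m j)) rfl
  refine le_trans ?_ h1
  have h2 : |(x - cj m j) i| ≤ ‖x - cj m j‖ := by
    have := PiLp.norm_apply_le (x - cj m j) i
    simpa using this
  have h3 := lap_bu (m := m) (d := dj j) (c := cj m j) (i := i) x
  change |Δ (bu m (dj j) (cj m j) i) x| ≤ _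
  rw [h3, abs_mul]
  gcongr

lemma us_le {j : ℕ} (i : Fin (m + 3)) {x : EE m} (hx : x ∈ Oj m j) : |us m i x| ≤ ‖x‖ + 1 := by
  rw [us_eq i hx]
  have h1 : |x i| ≤ ‖x‖ := by
    have := PiLp.norm_apply_le x i
    simpa using this
  have h2 : |bj m j i x| ≤ 1 := bu_le_one (dj_pos j) x
  exact (abs_add_le _ _).trans (add_le_add h1 h2)

lemma uN_le {j N : ℕ} (i : Fin (m + 3)) {x : EE m} (hx : x ∈ Oj m j) : |uN m N i x| ≤ ‖x‖ + 1 := by
  rw [uN_eq i hx]
  have h1 : |x i| ≤ ‖x‖ := by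
    have := PiLp.norm_apply_le x i
    simpa using this
  have h2 : |bj m j i x| ≤ 1 := bu_le_one (dj_pos j) x
  split_ifs
  · exact (abs_add_le _ _).trans (add_le_add h1 h2)
  · rw [add_zero]; linarith

/-- `∑ h_j ^ p` -/
noncomputable def DD (m : ℕ) (p : ℝ) (x : EE m) : ℝ≥0∞ := ∑' j, ENNReal.ofReal (hj m j x ^ p)

lemma hj_meas (j : ℕ) : Measurable (hj m j) := by
  have hc : Continuous fun x : EE m => al m (dj j) (‖x - cj m j‖ ^ 2) := by
    unfold al
    have h0 : Continuous (fun x : EE m => ‖x - cj m j‖ ^ 2) := (continuous_id.sub continuous_const).norm.pow 2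
    have h1 : Continuous (fun x : EE m => 1 + ((‖x - cj m j‖ ^ 2) / dj j ^ 2) ^ (m + 3)) :=
      continuous_const.add ((h0.div_const _).pow _)
    exact (h1.sqrt).inv₀ fun x => (Real.sqrt_pos.mpr (pos1 x)).ne'
  refine (continuous_const.mul hc).measurable.indicator ?_
  exact (isClosed_le ((continuous_id.sub continuous_const).norm.pow 2) continuous_const).measurableSet

lemma DD_eq {p : ℝ} (hp : 0 < p) {j : ℕ} {x : EE m} (hx : x ∈ Oj m j) : DD m p x = ENNReal.ofReal (hj m j x ^ p) := by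
  unfold DD
  rw [tsum_eq_single j]
  intro k hk
  rw [hj_far hk hx, Real.zero_rpow hp.ne', ENNReal.ofReal_zero]

/-- the weighted integral of one bump -/
lemma int_one {p : ℝ} (hp : 2 ≤ p) (hpn : p < m + 3) (j : ℕ) :
    ∫⁻ x : EE m, ENNReal.ofReal (‖x‖ ^ (p - (m + 3))) * ENNReal.ofReal (hj m j x ^ p) ≤
      ENNReal.ofReal (volume.real (Metric.ball (0 : EE m) 1) * (Real.pi / 2)) *
        ENNReal.ofReal (rj j ^ ((m + 3) - p)) := by
  have hr := rj_pos j
  have hd := dj_pos j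
  have hq : 0 < (m + 3 : ℝ) - p := by linarith
  have hpt : ∀ x : EE m, ENNReal.ofReal (‖x‖ ^ (p - (m + 3))) * ENNReal.ofReal (hj m j x ^ p) ≤
      ENNReal.ofReal ((2 / rj j) ^ ((m + 3) - p) * (dj j)⁻¹ ^ p) * ENNReal.ofReal (al m (dj j) (‖x - cj m j‖ ^ 2) ^ 2) := by
    intro x
    by_cases hx : ‖x - cj m j‖ ^ 2 ≤ 2 * dj j
    · have e : hj m j x = (dj j)⁻¹ * al m (dj j) (‖x - cj m j‖ ^ 2) := hj_in hx
      have ha := al_pos (m := m) (d := dj j) (sq_nonneg ‖x - cj m j‖)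
      have ha1 := al_le_one (m := m) (d := dj j) (sq_nonneg ‖x - cj m j‖)
      rw [← ENNReal.ofReal_mul (by positivity), ← ENNReal.ofReal_mul (by positivity)]
      apply ENNReal.ofReal_le_ofReal
      rw [e, Real.mul_rpow (by positivity) ha.le]
      have h1 : ‖x‖ ^ (p - (m + 3)) ≤ (2 / rj j) ^ ((m + 3 : ℝ) - p) := by
        have h2 := near hx
        have h3 : 0 < rj j / 2 := by positivity
        have e1 : p - (m + 3 : ℝ) = -((m + 3 : ℝ) - p) := by ring
        rw [e1, Real.rpow_neg (norm_nonneg _), ← Real.inv_rpow (norm_nonneg _)]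
        apply Real.rpow_le_rpow (by positivity) _ hq.le
        rw [show (2 / rj j) = (rj j / 2)⁻¹ by rw [inv_div]]
        exact inv_anti₀ h3 h2
      have h4 : al m (dj j) (‖x - cj m j‖ ^ 2) ^ p ≤ al m (dj j) (‖x - cj m j‖ ^ 2) ^ 2 := by
        have h5 := Real.rpow_le_rpow_of_exponent_ge ha ha1 hp
        rwa [Real.rpow_two] at h5
      calc ‖x‖ ^ (p - (m + 3 : ℝ)) * ((dj j)⁻¹ ^ p * al m (dj j) (‖x - cj m j‖ ^ 2) ^ p)
          ≤ (2 / rj j) ^ ((m + 3 : ℝ) - p) * ((dj j)⁻¹ ^ p * al m (dj j) (‖x - cj m j‖ ^ 2) ^ 2) := by gcongr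
        _ = _ := by ring
    · have e : hj m j x = 0 := hj_out hx
      rw [e, Real.zero_rpow (by linarith), ENNReal.ofReal_zero, mul_zero]
      exact zero_le
  refine (lintegral_mono hpt).trans ?_
  rw [lintegral_const_mul' _ _ ENNReal.ofReal_ne_top, al_int hd, ← ENNReal.ofReal_mul (by positivity),
    ← ENNReal.ofReal_mul (by positivity)]
  apply ENNReal.ofReal_le_ofReal
  set V := volume.real (Metric.ball (0 : EE m) 1) * (Real.pi / 2)
  have hV : 0 ≤ V := by positivity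
  have e1 : dj j ^ (m + 3) = dj j ^ (m + 3 : ℝ) := by
    rw [← Real.rpow_natCast]; push_cast; rfl
  have e2 : (dj j)⁻¹ ^ p * dj j ^ (m + 3) = dj j ^ ((m + 3 : ℝ) - p) := by
    rw [e1, Real.inv_rpow hd.le, Real.rpow_sub hd]
    field_simp
  have e3 : (2 / rj j) ^ ((m + 3 : ℝ) - p) * dj j ^ ((m + 3 : ℝ) - p) = (2 / rj j * dj j) ^ ((m + 3 : ℝ) - p) :=
    (Real.mul_rpow (by positivity) hd.le).symm
  calc (2 / rj j) ^ ((m + 3 : ℝ) - p) * (dj j)⁻¹ ^ p * (V * dj j ^ (m + 3))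
      = V * ((2 / rj j) ^ ((m + 3 : ℝ) - p) * ((dj j)⁻¹ ^ p * dj j ^ (m + 3))) := by ring
    _ = V * (2 / rj j * dj j) ^ ((m + 3 : ℝ) - p) := by rw [e2, e3]
    _ ≤ V * rj j ^ ((m + 3 : ℝ) - p) := by
        refine mul_le_mul_of_nonneg_left ?_ hV
        apply Real.rpow_le_rpow (by positivity) _ hq.le
        unfold dj
        have : 2 / rj j * (rj j ^ 2 / 256) = rj j / 128 := by field_simp; norm_num
        rw [this]
        linarith

/-- the weighted integral is finite -/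
lemma int_DD {p : ℝ} (hp : 2 ≤ p) (hpn : p < m + 3) :
    ∫⁻ x : EE m, ENNReal.ofReal (‖x‖ ^ (p - (m + 3))) * DD m p x ≠ ⊤ := by
  have h1 : ∀ x : EE m, ENNReal.ofReal (‖x‖ ^ (p - (m + 3))) * DD m p x =
      ∑' j, ENNReal.ofReal (‖x‖ ^ (p - (m + 3))) * ENNReal.ofReal (hj m j x ^ p) := fun x => by
    unfold DD
    rw [ENNReal.tsum_mul_left]
  simp only [h1]
  rw [lintegral_tsum]
  · refine ne_top_of_le_ne_top ?_ (ENNReal.tsum_le_tsum fun j => int_one hp hpn j)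
    rw [ENNReal.tsum_mul_left]
    refine ENNReal.mul_ne_top ENNReal.ofReal_ne_top ?_
    have hq : 0 < (m + 3 : ℝ) - p := by linarith
    have h2 : ∀ j, rj j ^ ((m + 3 : ℝ) - p) = ((1 / 2 : ℝ) ^ ((m + 3 : ℝ) - p)) ^ j := by
      intro j
      unfold rj
      rw [← Real.rpow_natCast, ← Real.rpow_mul (by norm_num), mul_comm, Real.rpow_mul (by norm_num), Real.rpow_natCast]
    simp only [h2]
    have hs : Summable fun j : ℕ => ((1 / 2 : ℝ) ^ ((m + 3 : ℝ) - p)) ^ j := by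
      apply summable_geometric_of_lt_one (by positivity)
      exact Real.rpow_lt_one (by norm_num) (by norm_num) hq
    rw [← ENNReal.ofReal_tsum_of_nonneg (fun j => by positivity) hs]
    exact ENNReal.ofReal_ne_top
  · intro j
    have h3 : Measurable fun x : EE m => ‖x‖ ^ (p - (m + 3 : ℝ)) := measurable_norm.pow_const _
    exact (h3.ennreal_ofReal.mul (((hj_meas j).pow_const p).ennreal_ofReal)).aemeasurable

end Pool.Agent.Q175.BB
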